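import Mathlib
import Pool.Agent.K4H34.HH.Hunt

/-!
# Tilted hybrids: matrices acting on `W ⊕ ℂ e₁ ⊕ ℂ e₂`
-/

set_option autoImplicit false
set_option linter.unusedSectionVars false

namespace Pool.Agent.K4H40.TH

open Matrix Pool.Agent.K4H34.HH

section pl

variable {m : Type*} [Fintype m] [DecidableEq m] {R : Type*} [CommRing R]

/-- The matrix with the block `Q` on `W` and the block `(a, b; c, d)` on the plane spanned by the
last two basis vectors. -/
def pl (Q : Matrix m m R) (a b c d : R) : Matrix ((m ⊕ Unit) ⊕ Unit) ((m ⊕ Unit) ⊕ Unit) R :=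
  fun x y => match x, y with
    | Sum.inl (Sum.inl i), Sum.inl (Sum.inl j) => Q i j
    | Sum.inl (Sum.inr _), Sum.inl (Sum.inr _) => a
    | Sum.inl (Sum.inr _), Sum.inr _ => b
    | Sum.inr _, Sum.inl (Sum.inr _) => c
    | Sum.inr _, Sum.inr _ => d
    | _, _ => 0

theorem pl_mul (Q Q' : Matrix m m R) (a b c d a' b' c' d' : R) :
    pl Q a b c d * pl Q' a' b' c' d' =
      pl (Q * Q') (a * a' + b * c') (a * b' + b * d') (c * a' + d * c') (c * b' + d * d') := by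
  ext x y
  rw [Matrix.mul_apply, Fintype.sum_sum_type, Fintype.sum_sum_type]
  rcases x with (x | x) | x <;> rcases y with (y | y) | y <;>
    simp [pl, Matrix.mul_apply]

theorem pl_one : pl (1 : Matrix m m R) 1 0 0 1 = 1 := by
  ext x y
  rcases x with (x | x) | x <;> rcases y with (y | y) | y <;>
    simp [pl, Matrix.one_apply]

theorem pl_smul (r : R) (Q : Matrix m m R) (a b c d : R) :
    r • pl Q a b c d = pl (r • Q) (r * a) (r * b) (r * c) (r * d) := by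
  ext x y
  rcases x with (x | x) | x <;> rcases y with (y | y) | y <;>
    simp [pl]

end pl

section complex

variable {m : Type*} [Fintype m] [DecidableEq m]

theorem pl_inj {Q Q' : Matrix m m ℂ} {a b c d a' b' c' d' : ℂ}
    (h : pl Q a b c d = pl Q' a' b' c' d') : Q = Q' ∧ a = a' ∧ b = b' ∧ c = c' ∧ d = d' := by
  refine ⟨?_, ?_, ?_, ?_, ?_⟩
  · ext i j
    exact congrFun (congrFun h (Sum.inl (Sum.inl i))) (Sum.inl (Sum.inl j))
  · exact congrFun (congrFun h (Sum.inl (Sum.inr ()))) (Sum.inl (Sum.inr ()))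
  · exact congrFun (congrFun h (Sum.inl (Sum.inr ()))) (Sum.inr ())
  · exact congrFun (congrFun h (Sum.inr ())) (Sum.inl (Sum.inr ()))
  · exact congrFun (congrFun h (Sum.inr ())) (Sum.inr ())

theorem sw_pl (Q : Matrix m m ℂ) (a b c d : ℂ) : sw (pl Q a b c d) = pl Q d c b a := by
  ext x y
  rw [sw_apply]
  rcases x with (x | x) | x <;> rcases y with (y | y) | y <;>
    simp [swapLast, pl]

theorem dn_dg (Q : Matrix m m ℂ) (a d : ℂ) : dn (dg Q a) d = pl Q a 0 0 d := by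
  ext x y
  rcases x with (x | x) | x <;> rcases y with (y | y) | y <;>
    simp [dn, dg, pl]

theorem dg_dg (Q : Matrix m m ℂ) (a d : ℂ) : dg (dg Q a) d = pl Q a 0 0 d := dn_dg Q a d

theorem pl_map (σ : ℂ ≃+* ℂ) (Q : Matrix m m ℂ) (a b c d : ℂ) :
    (pl Q a b c d).map σ = pl (Q.map σ) (σ a) (σ b) (σ c) (σ d) := by
  ext x y
  rcases x with (x | x) | x <;> rcases y with (y | y) | y <;>
    simp [pl]

theorem pl_star (Q : Matrix m m ℂ) (a b c d : ℂ) :
    (pl Q a b c d)ᴴ = pl Qᴴ (star a) (star c) (star b) (star d) := by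
  ext x y
  rcases x with (x | x) | x <;> rcases y with (y | y) | y <;>
    simp [pl]

/-- The change of basis from `(W, e₁, e₂ - β e₁)` to `(W, e₁, e₂)`. -/
def tm (β : ℂ) : Matrix ((m ⊕ Unit) ⊕ Unit) ((m ⊕ Unit) ⊕ Unit) ℂ := pl 1 1 (-β) 0 1

theorem tm_mul (β γ : ℂ) : tm β * tm γ = (tm (β + γ) : Matrix ((m ⊕ Unit) ⊕ Unit) _ ℂ) := by
  unfold tm
  rw [pl_mul, mul_one]
  congr 1 <;> ring

theorem tm_zero : (tm 0 : Matrix ((m ⊕ Unit) ⊕ Unit) _ ℂ) = 1 := by
  unfold tm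
  rw [neg_zero, pl_one]

/-- The same as an invertible matrix. -/
def tu (β : ℂ) : GL' ((m ⊕ Unit) ⊕ Unit) where
  val := tm β
  inv := tm (-β)
  val_inv := by rw [tm_mul, add_neg_cancel, tm_zero]
  inv_val := by rw [tm_mul, neg_add_cancel, tm_zero]

/-- A transformation of `W ⊕ ℂ e₁` acts on `W ⊕ ℂ e₁ ⊕ ℂ e₂` and fixes the vector `e₂ - β e₁`. -/
def tiltGL (β : ℂ) : GL' (m ⊕ Unit) →* GL' ((m ⊕ Unit) ⊕ Unit) :=
  (MulAut.conj (tu β)).toMonoidHom.comp extendGL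

theorem tiltGL_apply (β : ℂ) (γ : GL' (m ⊕ Unit)) :
    tiltGL β γ = tu β * extendGL γ * (tu β)⁻¹ := rfl

theorem tiltGL_val (β : ℂ) (γ : GL' (m ⊕ Unit)) :
    (tiltGL β γ).1 = tm β * extend γ.1 * tm (-β) := rfl

/-- The hybrid of two groups of matrices on `W ⊕ ℂ`, where `b = ⟨e₁, e₂⟩`: they act on
`W ⊕ ℂ e₁ ⊕ ℂ e₂`, the first one on `W ⊕ ℂ e₁` and trivially on its orthogonal complement (spanned by
`e₂ - b e₁`), the second one on `W ⊕ ℂ e₂` and trivially on its orthogonal complement (spanned by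
`e₁ - b̄ e₂`). -/
def tiltedHybrid (b : ℂ) (Γ₁ Γ₂ : Subgroup (GL' (m ⊕ Unit))) :
    Subgroup (GL' ((m ⊕ Unit) ⊕ Unit)) :=
  Γ₁.map (tiltGL b) ⊔ (Γ₂.map (tiltGL (starRingEnd ℂ b))).map swapGL

/-- The Hermitian form on `W ⊕ ℂ e₁ ⊕ ℂ e₂` which is `J` on `W`, and for which `e₁, e₂` are
orthogonal to `W` and of norm one with `⟨e₁, e₂⟩ = b`. -/
def tiltedForm (J : Matrix m m ℂ) (b : ℂ) : Matrix ((m ⊕ Unit) ⊕ Unit) ((m ⊕ Unit) ⊕ Unit) ℂ :=
  pl J 1 b (starRingEnd ℂ b) 1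

end complex

end Pool.Agent.K4H40.TH
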