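import Mathlib
import Pool.Agent.K4H40.TH.Pl

/-!
# Tilted hybrids: intertwining matrices and irreducibility
-/

set_option autoImplicit false
set_option linter.unusedSectionVars false

namespace Pool.Agent.K4H40.TH

open Matrix Pool.Agent.K4H34.HH

open scoped ComplexOrder

variable {m : Type*} [Fintype m] [DecidableEq m]

/-- The structure of the matrices which intertwine two extended representations. -/
theorem struct (hm : 2 ≤ Fintype.card m)
    {f g : GL' (m ⊕ Unit) →* Matrix (m ⊕ Unit) (m ⊕ Unit) ℂ} {f3 g3 : GL' m →* Matrix m m ℂ}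
    (hf : ∀ γ, f (extendGL γ) = extend (f3 γ)) (hg : ∀ γ, g (extendGL γ) = extend (g3 γ))
    {Γ : Subgroup (GL' (m ⊕ Unit))} {Γ₃ : Subgroup (GL' m)} (hle : Γ₃.map extendGL ≤ Γ)
    (sf : Spans (f.comp Γ.subtype)) (sg : Spans (g.comp Γ.subtype))
    (sf3 : Spans (f3.comp Γ₃.subtype)) (sg3 : Spans (g3.comp Γ₃.subtype))
    {P : Matrix ((m ⊕ Unit) ⊕ Unit) ((m ⊕ Unit) ⊕ Unit) ℂ}
    (hP : ∀ γ ∈ Γ, extend (f γ) * P = P * extend (g γ)) :
    ∃ (Q : Matrix m m ℂ) (a d : ℂ), (∀ γ ∈ Γ, f γ * dg Q a = dg Q a * g γ) ∧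
      (∀ γ ∈ Γ₃, f3 γ * Q = Q * g3 γ) ∧ P = pl Q a 0 0 d := by
  have hm' : 2 ≤ Fintype.card (m ⊕ Unit) := by
    rw [Fintype.card_sum]
    omega
  obtain ⟨Q', d, rfl, hQ'⟩ := block_form hm' sg sf (M := P) (fun γ => hP γ.1 γ.2)
  obtain ⟨Q, a, rfl, hQ⟩ := block_form hm sg3 sf3 (M := Q') (by
    intro γ
    have h1 := hQ' ⟨extendGL γ.1, hle ⟨γ.1, γ.2, rfl⟩⟩
    change f (extendGL γ.1) * Q' = Q' * g (extendGL γ.1) at h1
    rw [hf, hg] at h1
    exact h1)
  exact ⟨Q, a, d, fun γ hγ => hQ' ⟨γ, hγ⟩, fun γ hγ => hQ ⟨γ, hγ⟩, dg_dg Q a d⟩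

/-- Submodules invariant under an extended irreducible group. -/
theorem inv_cases {N : Type*} [Fintype N] [DecidableEq N] (hN : 2 ≤ Fintype.card N)
    {Γ : Subgroup (GL' N)} (h : Spans (coeR Γ)) (T : Submodule ℂ (N ⊕ Unit → ℂ))
    (hT : ∀ γ ∈ Γ, ∀ v ∈ T, extend γ.1 *ᵥ v ∈ T) :
    (∀ w : N → ℂ, Sum.elim w (0 : Unit → ℂ) ∈ T) ∨ ∀ v ∈ T, ∀ i, v (Sum.inl i) = 0 := by
  by_cases hcon : ∀ v ∈ T, ∀ i, v (Sum.inl i) = 0
  · exact Or.inr hcon
  · left
    push Not at hcon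
    obtain ⟨v, hv, i, hi⟩ := hcon
    have hne : (fun i => v (Sum.inl i)) ≠ 0 := fun h0 => hi (congrFun h0 i)
    have hmv : ∀ (A : Matrix N N ℂ) (u : N ⊕ Unit → ℂ),
        extend A *ᵥ u = Sum.elim (A *ᵥ (fun i => u (Sum.inl i))) (fun _ => u (Sum.inr ())) := by
      intro A u
      have h1 : u = Sum.elim (fun i => u (Sum.inl i)) (fun _ => u (Sum.inr ())) := by
        funext x
        rcases x with x | x <;> rfl
      conv_lhs => rw [h1]
      change Matrix.fromBlocks A 0 0 1 *ᵥ _ = _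
      rw [Matrix.fromBlocks_mulVec]
      simp only [Sum.elim_comp_inl, Sum.elim_comp_inr, Matrix.zero_mulVec, add_zero, zero_add,
        Matrix.one_mulVec]
    -- a vector in the submodule with last coordinate zero
    obtain ⟨u, hu, hu0, hu1⟩ : ∃ u ∈ T, u (Sum.inr ()) = 0 ∧ (fun i => u (Sum.inl i)) ≠ 0 := by
      by_contra hno
      push Not at hno
      apply hne
      apply fixed_vec hN h
      intro γ
      have h1 := T.sub_mem (hT γ.1 γ.2 v hv) hv
      have h2 := hno _ h1 (by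
        rw [hmv]
        simp)
      rw [hmv] at h2
      have h3 : (fun i => (Sum.elim (γ.1.1 *ᵥ fun i => v (Sum.inl i)) (fun _ => v (Sum.inr ())) - v :
        N ⊕ Unit → ℂ) (Sum.inl i)) = γ.1.1 *ᵥ (fun i => v (Sum.inl i)) - fun i => v (Sum.inl i) := by
        funext i
        simp
      rw [h3] at h2
      exact sub_eq_zero.1 h2
    intro w
    obtain ⟨j, hj⟩ := Function.ne_iff.1 hu1
    have key : ∀ B ∈ Submodule.span ℂ (Set.range (coeR Γ)),
        Sum.elim (B *ᵥ fun i => u (Sum.inl i)) (0 : Unit → ℂ) ∈ T := by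
      intro B hB
      induction hB using Submodule.span_induction with
      | mem B hB =>
        obtain ⟨γ, rfl⟩ := hB
        have h1 := hT γ.1 γ.2 u hu
        rw [hmv, hu0] at h1
        exact h1
      | zero =>
        rw [Matrix.zero_mulVec]
        convert T.zero_mem
        ext x
        rcases x with x | x <;> rfl
      | add B B' _ _ hB hB' =>
        rw [Matrix.add_mulVec]
        convert T.add_mem hB hB'
        ext x
        rcases x with x | x <;> simp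
      | smul c B _ hB =>
        rw [Matrix.smul_mulVec]
        convert T.smul_mem c hB
        ext x
        rcases x with x | x <;> simp
    have h1 := key (Matrix.of fun i k => if k = j then w i * (u (Sum.inl j))⁻¹ else 0) (by
      rw [h]
      trivial)
    convert h1
    ext i
    simp only [Matrix.mulVec, dotProduct, Matrix.of_apply, ite_mul, zero_mul, Finset.sum_ite_eq',
      Finset.mem_univ, if_true]
    have : u (Sum.inl j) ≠ 0 := hj
    field_simp

theorem tm_mulVec (β : ℂ) (v : (m ⊕ Unit) ⊕ Unit → ℂ) :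
    tm β *ᵥ v = fun x => match x with
      | Sum.inl (Sum.inl i) => v (Sum.inl (Sum.inl i))
      | Sum.inl (Sum.inr _) => v (Sum.inl (Sum.inr ())) - β * v (Sum.inr ())
      | Sum.inr _ => v (Sum.inr ()) := by
  ext x
  unfold tm
  rw [Matrix.mulVec, dotProduct, Fintype.sum_sum_type, Fintype.sum_sum_type]
  rcases x with (x | x) | x
  · simp [pl, Matrix.one_apply]
  · simp [pl, sub_eq_add_neg]
  · simp [pl]

/-- Submodules invariant under one piece of a tilted hybrid. -/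
theorem inv_tilt (hm : 1 ≤ Fintype.card m) {Γ : Subgroup (GL' (m ⊕ Unit))} (h : Spans (coeR Γ))
    (β : ℂ) (T : Submodule ℂ ((m ⊕ Unit) ⊕ Unit → ℂ))
    (hT : ∀ γ ∈ Γ, ∀ v ∈ T, (tiltGL β γ).1 *ᵥ v ∈ T) :
    (∀ w : m ⊕ Unit → ℂ, Sum.elim w (0 : Unit → ℂ) ∈ T) ∨
      ∀ v ∈ T, (∀ i, v (Sum.inl (Sum.inl i)) = 0) ∧
        v (Sum.inl (Sum.inr ())) + β * v (Sum.inr ()) = 0 := by
  have hN : 2 ≤ Fintype.card (m ⊕ Unit) := by
    rw [Fintype.card_sum, Fintype.card_unit]
    omega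
  let T' : Submodule ℂ ((m ⊕ Unit) ⊕ Unit → ℂ) := T.comap (Matrix.mulVecLin (tm β))
  have hT' : ∀ v, v ∈ T' ↔ tm β *ᵥ v ∈ T := fun v => Iff.rfl
  have h1 := inv_cases hN h T' (by
    intro γ hγ v hv
    rw [hT'] at hv ⊢
    have h2 := hT γ hγ _ hv
    rw [tiltGL_val, Matrix.mulVec_mulVec, mul_assoc, tm_mul, neg_add_cancel, tm_zero, mul_one,
      ← Matrix.mulVec_mulVec] at h2
    exact h2)
  rcases h1 with h1 | h1
  · left
    intro w
    have h2 := h1 w
    rw [hT', tm_mulVec] at h2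
    convert h2 using 1
    ext x
    rcases x with (x | x) | x <;> simp
  · right
    intro v hv
    have h2 := h1 (tm (-β) *ᵥ v) (by
      rw [hT', Matrix.mulVec_mulVec, tm_mul, add_neg_cancel, tm_zero, Matrix.one_mulVec]
      exact hv)
    rw [tm_mulVec] at h2
    refine ⟨fun i => h2 (Sum.inl i), ?_⟩
    have h3 := h2 (Sum.inr ())
    simpa using h3

theorem sw_mulVec (A : Matrix ((m ⊕ Unit) ⊕ Unit) ((m ⊕ Unit) ⊕ Unit) ℂ)
    (v : (m ⊕ Unit) ⊕ Unit → ℂ) :
    sw A *ᵥ v = fun x => (A *ᵥ (fun y => v (swapLast y))) (swapLast.symm x) := by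
  ext x
  unfold Matrix.mulVec dotProduct
  refine Fintype.sum_equiv (swapLast (m := m)).symm _ _ fun y => ?_
  change sw A x y * v y = A (swapLast.symm x) (swapLast.symm y) * v (swapLast (swapLast.symm y))
  rw [sw_apply, Equiv.apply_symm_apply]

/-- **The tilted hybrid is irreducible.** -/
theorem irreducible (hm : 1 ≤ Fintype.card m) {Γ₁ Γ₂ : Subgroup (GL' (m ⊕ Unit))}
    (h1 : Spans (coeR Γ₁)) (h2 : Spans (coeR Γ₂)) {b : ℂ} (hb : ‖b‖ < 1) :
    IsIrreducible (tiltedHybrid b Γ₁ Γ₂) := by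
  intro T hT
  have e1 := inv_tilt hm h1 b T (fun γ hγ v hv =>
    hT _ (Subgroup.mem_sup_left ⟨γ, hγ, rfl⟩) v hv)
  let S : Submodule ℂ ((m ⊕ Unit) ⊕ Unit → ℂ) :=
    T.comap (LinearMap.funLeft ℂ ℂ (swapLast (m := m)).symm)
  have hS : ∀ v, v ∈ S ↔ (fun x => v (swapLast.symm x)) ∈ T := fun v => Iff.rfl
  have e2 := inv_tilt hm h2 (starRingEnd ℂ b) S (by
    intro γ hγ v hv
    rw [hS] at hv ⊢
    have h3 := hT (swapGL (tiltGL (starRingEnd ℂ b) γ))
      (Subgroup.mem_sup_right ⟨_, ⟨γ, hγ, rfl⟩, rfl⟩) _ hv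
    have h4 : (swapGL (tiltGL (starRingEnd ℂ b) γ)).1 = sw (tiltGL (starRingEnd ℂ b) γ).1 := rfl
    rw [h4, sw_mulVec] at h3
    simpa using h3)
  have hn : (b * starRingEnd ℂ b : ℂ) ≠ 1 := by
    rw [Complex.mul_conj']
    intro h
    have h3 : ‖b‖ ^ 2 = 1 := by exact_mod_cast h
    have h4 := norm_nonneg b
    nlinarith
  obtain ⟨i⟩ : Nonempty m := by
    rw [← Fintype.card_pos_iff]
    omega
  rcases e1 with e1 | e1 <;> rcases e2 with e2 | e2
  · right
    rw [eq_top_iff]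
    intro v _
    have h3 := e1 (fun x => v (Sum.inl x))
    have h4 := e2 (Sum.elim 0 (fun _ => v (Sum.inr ())))
    rw [hS] at h4
    have h5 := T.add_mem h3 h4
    convert h5 using 1
    ext x
    rcases x with (x | x) | x <;> simp [swapLast]
  · exfalso
    have h3 := e1 (Sum.elim (fun _ => 1) 0)
    have h4 := (e2 (fun x => Sum.elim (Sum.elim (fun _ => (1 : ℂ)) 0) (0 : Unit → ℂ) (swapLast x))
      (by
        rw [hS]
        simpa using h3)).1 i
    simp [swapLast] at h4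
  · exfalso
    have h3 := e2 (Sum.elim (fun _ => 1) 0)
    rw [hS] at h3
    have h4 := (e1 _ h3).1 i
    simp [swapLast] at h4
  · left
    rw [eq_bot_iff]
    intro v hv
    obtain ⟨h3, h4⟩ := e1 v hv
    obtain ⟨_, h5⟩ := e2 (fun x => v (swapLast x)) (by
      rw [hS]
      simpa using hv)
    have h6 : v (Sum.inr ()) + starRingEnd ℂ b * v (Sum.inl (Sum.inr ())) = 0 := by
      simpa [swapLast] using h5
    have h7 : v (Sum.inl (Sum.inr ())) = 0 := by
      have h8 : v (Sum.inl (Sum.inr ())) * (1 - b * starRingEnd ℂ b) = 0 := by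
        linear_combination h4 - b * h6
      rcases mul_eq_zero.1 h8 with h9 | h9
      · exact h9
      · exact absurd (sub_eq_zero.1 h9).symm hn
    have h8 : v (Sum.inr ()) = 0 := by
      rw [h7, mul_zero, add_zero] at h6
      exact h6
    rw [Submodule.mem_bot]
    ext x
    rcases x with (x | x) | x
    · exact h3 x
    · exact h7
    · exact h8

theorem spans_tilted (hm : 1 ≤ Fintype.card m) {Γ₁ Γ₂ : Subgroup (GL' (m ⊕ Unit))}
    (h1 : Spans (coeR Γ₁)) (h2 : Spans (coeR Γ₂)) {b : ℂ} (hb : ‖b‖ < 1) :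
    Spans (coeR (tiltedHybrid b Γ₁ Γ₂)) :=
  spans_of_irreducible (irreducible hm h1 h2 hb)

end Pool.Agent.K4H40.TH
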