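import Mathlib
import Pool.Agent.K4H40.TH.Struct

/-!
# Tilted hybrids: automorphisms under which the traces are bounded
-/

set_option autoImplicit false
set_option linter.unusedSectionVars false


namespace Pool.Agent.K4H40.TH

open Matrix Pool.Agent.K4H34.HH

open scoped ComplexOrder

section general

variable {N : Type*} [Fintype N] [DecidableEq N]

theorem conj_inter {A A' B B' X Y P : Matrix N N ℂ} (hA : A' * A = 1) (hB : B' * B = 1)
    (h : (B * X * B') * P = P * (A * Y * A')) : X * (B' * P * A) = (B' * P * A) * Y := by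
  calc X * (B' * P * A) = (B' * B) * X * (B' * P * A) := by rw [hB, one_mul]
    _ = B' * ((B * X * B') * P) * A := by simp only [mul_assoc]
    _ = B' * (P * (A * Y * A')) * A := by rw [h]
    _ = (B' * P * A) * Y * (A' * A) := by simp only [mul_assoc]
    _ = (B' * P * A) * Y := by rw [hA, mul_one]

/-- A congruent matrix is positive definite. -/
theorem isPos_congr {P A A' : Matrix N N ℂ} (hP : IsPos P) (hA : A' * A = 1) :
    IsPos (Aᴴ * P * A) := by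
  obtain ⟨h1, ε, hε, h2⟩ := hP
  refine ⟨?_, ?_⟩
  · rw [Matrix.conjTranspose_mul, Matrix.conjTranspose_mul, Matrix.conjTranspose_conjTranspose, h1,
      mul_assoc]
  · obtain ⟨c, hc⟩ : ∃ c : ℝ, ∀ i j, ‖A' i j‖ ≤ c := by
      refine ⟨∑ i, ∑ j, ‖A' i j‖, fun i j => ?_⟩
      refine (Finset.single_le_sum (f := fun j => ‖A' i j‖) (fun _ _ => norm_nonneg _)
        (Finset.mem_univ j)).trans ?_
      exact Finset.single_le_sum (f := fun i => ∑ j, ‖A' i j‖)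
        (fun _ _ => Finset.sum_nonneg fun _ _ => norm_nonneg _) (Finset.mem_univ i)
    set K : ℝ := (Fintype.card N : ℝ) ^ 2 * c ^ 2 + 1 with hK
    have hK0 : 0 < K := by positivity
    refine ⟨ε / K, div_pos hε hK0, fun v => ?_⟩
    have h3 : nrm v ≤ K * nrm (A *ᵥ v) := by
      have h4 := nrm_mulVec_le hc (A *ᵥ v)
      rw [Matrix.mulVec_mulVec, hA, Matrix.one_mulVec] at h4
      have h5 : 0 ≤ nrm (A *ᵥ v) := by
        unfold nrm
        positivity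
      rw [hK, add_mul, one_mul]
      linarith
    rw [quad_conj, div_mul_eq_mul_div, div_le_iff₀ hK0]
    calc ε * nrm v ≤ ε * (K * nrm (A *ᵥ v)) := mul_le_mul_of_nonneg_left h3 hε.le
      _ = ε * nrm (A *ᵥ v) * K := by ring
      _ ≤ quad P (A *ᵥ v) * K := mul_le_mul_of_nonneg_right (h2 _) hK0.le

/-- Traces of matrices preserving a positive definite form are bounded. -/
theorem trace_bounded {H : Matrix N N ℂ} (hH : IsPos H) :
    ∃ C : ℝ, ∀ A : Matrix N N ℂ, Aᴴ * H * A = H → ‖A.trace‖ ≤ C := by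
  obtain ⟨B, hB0, hB⟩ := entries_bounded hH
  refine ⟨∑ _i : N, B, fun A hA => ?_⟩
  unfold Matrix.trace
  exact (norm_sum_le _ _).trans (Finset.sum_le_sum fun i _ => hB _ hA i i)

end general

variable {m : Type*} [Fintype m] [DecidableEq m]

theorem tm_neg_mul (β : ℂ) : tm (-β) * tm β = (1 : Matrix ((m ⊕ Unit) ⊕ Unit) _ ℂ) := by
  rw [tm_mul, neg_add_cancel, tm_zero]

theorem tm_mul_neg (β : ℂ) : tm β * tm (-β) = (1 : Matrix ((m ⊕ Unit) ⊕ Unit) _ ℂ) := by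
  rw [tm_mul, add_neg_cancel, tm_zero]

theorem tm_map (σ : ℂ ≃+* ℂ) (β : ℂ) :
    (tm β : Matrix ((m ⊕ Unit) ⊕ Unit) _ ℂ).map σ = tm (σ β) := by
  unfold tm
  rw [pl_map, map_neg, map_one, map_zero]
  congr 1
  ext i j
  simp [Matrix.one_apply]

theorem tw_tilt (σ : ℂ ≃+* ℂ) (β : ℂ) (γ : GL' (m ⊕ Unit)) :
    tw σ (co _) (tiltGL β γ) = tm (σ β) * extend (tw σ (co _) γ) * tm (-(σ β)) := by
  change (tiltGL β γ).1.map σ = _ * extend (γ.1.map σ) * _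
  have h4 : ∀ A B : Matrix ((m ⊕ Unit) ⊕ Unit) ((m ⊕ Unit) ⊕ Unit) ℂ,
      (A * B).map σ = A.map σ * B.map σ := by
    intro A B
    exact Matrix.map_mul (f := (σ : ℂ →+* ℂ))
  rw [tiltGL_val, h4, h4, tm_map, tm_map, map_extend, map_neg]

theorem dual_tw_tilt (σ : ℂ ≃+* ℂ) (β : ℂ) (γ : GL' (m ⊕ Unit)) :
    dual (tw σ (co _)) (tiltGL β γ) =
      (tm (-(σ β)))ᴴ * extend (dual (tw σ (co _)) γ) * (tm (σ β))ᴴ := by
  rw [dual_apply, dual_apply, ← map_inv, tw_tilt, Matrix.conjTranspose_mul,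
    Matrix.conjTranspose_mul, star_extend, mul_assoc]

variable {Γ₁ Γ₂ : Subgroup (GL' (m ⊕ Unit))} {Γ₃ : Subgroup (GL' m)}

theorem tleft_mem {b : ℂ} {γ : GL' (m ⊕ Unit)} (hγ : γ ∈ Γ₁) :
    tiltGL b γ ∈ tiltedHybrid b Γ₁ Γ₂ :=
  Subgroup.mem_sup_left ⟨γ, hγ, rfl⟩

theorem tright_mem {b : ℂ} {γ : GL' (m ⊕ Unit)} (hγ : γ ∈ Γ₂) :
    swapGL (tiltGL (starRingEnd ℂ b) γ) ∈ tiltedHybrid b Γ₁ Γ₂ :=
  Subgroup.mem_sup_right ⟨_, ⟨γ, hγ, rfl⟩, rfl⟩

theorem trace_tilt (β : ℂ) (γ : GL' (m ⊕ Unit)) : (tiltGL β γ).1.trace = γ.1.trace + 1 := by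
  rw [tiltGL_apply, Pool.Agent.K4H34.HH.trace_conj, trace_extendGL]

theorem sp_tw {N : Type*} [Fintype N] [DecidableEq N] {Γ : Subgroup (GL' N)} (σ : ℂ ≃+* ℂ)
    (h : Spans (coeR Γ)) : Spans ((tw σ (co N)).comp Γ.subtype) := by
  have h4 : (tw σ (co N)).comp Γ.subtype = tw σ (coeR Γ) := by
    ext γ : 1
    rfl
  rw [h4]
  exact spans_tw σ h

theorem sp_dual {N : Type*} [Fintype N] [DecidableEq N] {Γ : Subgroup (GL' N)} (σ : ℂ ≃+* ℂ)
    (h : Spans (coeR Γ)) : Spans ((dual (tw σ (co N))).comp Γ.subtype) := by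
  have h4 : (dual (tw σ (co N))).comp Γ.subtype = dual (tw σ (coeR Γ)) := by
    ext γ : 1
    rfl
  rw [h4]
  exact spans_dual (spans_tw σ h)

/-- The structure of an intertwining matrix of the conjugate of a tilted hybrid with its dual. -/
theorem blocks (hm : 2 ≤ Fintype.card m) (h3 : Spans (coeR Γ₃)) (h1 : Spans (coeR Γ₁))
    (h2 : Spans (coeR Γ₂)) (hle1 : Γ₃.map extendGL ≤ Γ₁) (hle2 : Γ₃.map extendGL ≤ Γ₂)
    (σ : ℂ ≃+* ℂ) (b : ℂ) {P : Matrix ((m ⊕ Unit) ⊕ Unit) ((m ⊕ Unit) ⊕ Unit) ℂ}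
    (hP : ∀ g ∈ tiltedHybrid b Γ₁ Γ₂, dual (tw σ (co _)) g * P = P * tw σ (co _) g) :
    ∃ (Q : Matrix m m ℂ) (a d a' d' : ℂ),
      (∀ γ ∈ Γ₁, dual (tw σ (co _)) γ * dg Q a = dg Q a * tw σ (co _) γ) ∧
      (∀ γ ∈ Γ₂, dual (tw σ (co _)) γ * dg Q a' = dg Q a' * tw σ (co _) γ) ∧
      (tm (σ b))ᴴ * P * tm (σ b) = pl Q a 0 0 d ∧
      (tm (σ (starRingEnd ℂ b)))ᴴ * sw P * tm (σ (starRingEnd ℂ b)) = pl Q a' 0 0 d' ∧
      star (σ b) * a = a' * σ (starRingEnd ℂ b) ∧ a' = star (σ b) * a * σ b + d := by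
  set β := σ b with hβ
  set γ' := σ (starRingEnd ℂ b) with hγ'
  -- left
  obtain ⟨Q, a, d, q1, _, q3⟩ := struct hm (f := dual (tw σ (co (m ⊕ Unit))))
    (g := tw σ (co (m ⊕ Unit))) (f3 := dual (tw σ (co m))) (g3 := tw σ (co m))
    (dual_tw_extend σ) (tw_extend σ) hle1 (sp_dual σ h1) (sp_tw σ h1) (sp_dual σ h3) (sp_tw σ h3)
    (P := (tm β)ᴴ * P * tm β) (by
      intro γ hγ
      have h4 := hP _ (tleft_mem hγ)
      rw [dual_tw_tilt, tw_tilt] at h4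
      refine conj_inter (tm_neg_mul β) ?_ h4
      rw [← Matrix.conjTranspose_mul, tm_neg_mul, Matrix.conjTranspose_one])
  obtain ⟨Q', a', d', q1', _, q3'⟩ := struct hm (f := dual (tw σ (co (m ⊕ Unit))))
    (g := tw σ (co (m ⊕ Unit))) (f3 := dual (tw σ (co m))) (g3 := tw σ (co m))
    (dual_tw_extend σ) (tw_extend σ) hle2 (sp_dual σ h2) (sp_tw σ h2) (sp_dual σ h3) (sp_tw σ h3)
    (P := (tm γ')ᴴ * sw P * tm γ') (by
      intro γ hγ
      have h4 := hP _ (tright_mem hγ)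
      rw [dual_tw_swap, tw_swap] at h4
      have h5 := congrArg sw h4
      rw [map_mul, map_mul] at h5
      have h6 : ∀ A : Matrix ((m ⊕ Unit) ⊕ Unit) ((m ⊕ Unit) ⊕ Unit) ℂ, sw (sw A) = A := by
        intro A
        ext x y
        rw [sw_apply, sw_apply]
        rcases x with (x | x) | x <;> rcases y with (y | y) | y <;> rfl
      rw [h6, h6, dual_tw_tilt, tw_tilt] at h5
      refine conj_inter (tm_neg_mul γ') ?_ h5
      rw [← Matrix.conjTranspose_mul, tm_neg_mul, Matrix.conjTranspose_one])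
  -- recover P
  have e1 : P = pl Q a (a * β) (star β * a) (star β * a * β + d) := by
    have h4 : (tm (-β))ᴴ * ((tm β)ᴴ * P * tm β) * tm (-β) = P := by
      have h5 : (tm (-β))ᴴ * (tm β : Matrix ((m ⊕ Unit) ⊕ Unit) _ ℂ)ᴴ = 1 := by
        rw [← Matrix.conjTranspose_mul, tm_mul_neg, Matrix.conjTranspose_one]
      calc (tm (-β))ᴴ * ((tm β)ᴴ * P * tm β) * tm (-β) =
          ((tm (-β))ᴴ * (tm β)ᴴ) * P * (tm β * tm (-β)) := by simp only [mul_assoc]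
        _ = P := by rw [h5, tm_mul_neg, one_mul, mul_one]
    rw [← h4, q3]
    unfold tm
    rw [pl_star, pl_mul, pl_mul]
    simp
  have e2 : sw P = pl Q' a' (a' * γ') (star γ' * a') (star γ' * a' * γ' + d') := by
    have h4 : (tm (-γ'))ᴴ * ((tm γ')ᴴ * sw P * tm γ') * tm (-γ') = sw P := by
      have h5 : (tm (-γ'))ᴴ * (tm γ' : Matrix ((m ⊕ Unit) ⊕ Unit) _ ℂ)ᴴ = 1 := by
        rw [← Matrix.conjTranspose_mul, tm_mul_neg, Matrix.conjTranspose_one]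
      calc (tm (-γ'))ᴴ * ((tm γ')ᴴ * sw P * tm γ') * tm (-γ') =
          ((tm (-γ'))ᴴ * (tm γ')ᴴ) * sw P * (tm γ' * tm (-γ')) := by simp only [mul_assoc]
        _ = sw P := by rw [h5, tm_mul_neg, one_mul, mul_one]
    rw [← h4, q3']
    unfold tm
    rw [pl_star, pl_mul, pl_mul]
    simp
  rw [e1, sw_pl] at e2
  obtain ⟨r1, r2, r3, r4, r5⟩ := pl_inj e2
  subst r1
  exact ⟨Q, a, d, a', d', q1, q1', q3, q3', r3, r2.symm⟩

end Pool.Agent.K4H40.TH
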