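import Mathlib
import Pool.Agent.K4H40.TH.Bdd

/-!
# The criterion for tilted hybrids
-/

set_option autoImplicit false
set_option linter.unusedSectionVars false


namespace Pool.Agent.K4H40.TH

open Matrix Pool.Agent.K4H34.HH

open scoped ComplexOrder

section general

variable {N : Type*} [Fintype N] [DecidableEq N]

theorem tr_map (σ : ℂ ≃+* ℂ) (A : Matrix N N ℂ) : (A.map σ).trace = σ A.trace :=
  Pool.Agent.K4H34.HH.trace_map σ A

/-- A group with bounded conjugates of traces preserves a positive definite form. -/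
theorem form_of_bounded [Nonempty N] {Γ : Subgroup (GL' N)} (hΓ : Spans (coeR Γ)) {σ : ℂ ≃+* ℂ}
    (hσ : TracesBounded σ Γ) :
    ∃ P : Matrix N N ℂ, IsPos P ∧ ∀ γ ∈ Γ, dual (tw σ (co N)) γ * P = P * tw σ (co N) γ := by
  obtain ⟨C, hC⟩ := hσ
  obtain ⟨c, hc⟩ := entries_of_traces (spans_tw σ hΓ) (C := C) (fun γ => by
    rw [tw_apply, tr_map]
    exact hC γ.1 γ.2)
  obtain ⟨P, hPp, hP⟩ := exists_pos (tw σ (coeR Γ)) hc
  refine ⟨P, hPp, fun γ hγ => ?_⟩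
  have e1 := hP ⟨γ, hγ⟩
  have e3 : tw σ (coeR Γ) ⟨γ, hγ⟩ = tw σ (co N) γ := rfl
  rw [e3] at e1
  have e2 : dual (tw σ (co N)) γ * (tw σ (co N) γ)ᴴ = 1 := by
    rw [dual_apply, ← Matrix.conjTranspose_mul, ← map_mul, mul_inv_cancel, map_one,
      Matrix.conjTranspose_one]
  calc dual (tw σ (co N)) γ * P
      = dual (tw σ (co N)) γ * ((tw σ (co N) γ)ᴴ * P * tw σ (co N) γ) := by rw [e1]
    _ = (dual (tw σ (co N)) γ * (tw σ (co N) γ)ᴴ) * (P * tw σ (co N) γ) := by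
        simp only [mul_assoc]
    _ = P * tw σ (co N) γ := by rw [e2, one_mul]

/-- The conjugate of the trace of the inverse. -/
theorem conj_trace_inv {K : Matrix N N ℂ} (hK : IsUnit K) {σ : ℂ ≃+* ℂ} {γ : GL' N}
    (h : dual (tw σ (co N)) γ * K = K * tw σ (co N) γ) :
    starRingEnd ℂ (σ (γ⁻¹).1.trace) = σ γ.1.trace := by
  obtain ⟨U, rfl⟩ := hK
  have h1 : dual (tw σ (co N)) γ = U.1 * tw σ (co N) γ * (U⁻¹).1 := by
    rw [← h, mul_assoc, U.mul_inv, mul_one]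
  have h2 : (dual (tw σ (co N)) γ).trace = (tw σ (co N) γ).trace := by
    rw [h1, Matrix.trace_mul_comm, ← mul_assoc, U.inv_mul, one_mul]
  have h3 : (dual (tw σ (co N)) γ).trace = starRingEnd ℂ (σ (γ⁻¹).1.trace) := by
    rw [dual_apply, Matrix.trace_conjTranspose, ← tr_map]
    rfl
  have h4 : (tw σ (co N) γ).trace = σ γ.1.trace := by
    rw [← tr_map]
    rfl
  rw [← h3, h2, h4]

/-- The automorphism commutes with the complex conjugation on the trace field. -/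
theorem commutes_of_bounded [Nonempty N] {J : Matrix N N ℂ} (hJ : IsUnit J)
    {Γ : Subgroup (GL' N)} (hle : Γ ≤ SU J) (hΓ : Spans (coeR Γ)) {σ : ℂ ≃+* ℂ}
    (hσ : TracesBounded σ Γ) : ∀ z ∈ traceField Γ, σ (starRingEnd ℂ z) = starRingEnd ℂ (σ z) := by
  obtain ⟨P, hP, hPΓ⟩ := form_of_bounded hΓ hσ
  have h1 : traceField Γ ≤ ((σ : ℂ →+* ℂ).comp (starRingEnd ℂ)).eqLocusField
      ((starRingEnd ℂ).comp (σ : ℂ →+* ℂ)) := by
    unfold traceField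
    rw [Subfield.closure_le]
    rintro _ ⟨γ, hγ, rfl⟩
    change σ (starRingEnd ℂ γ.1.trace) = starRingEnd ℂ (σ γ.1.trace)
    have h2 := conj_trace_inv (isPos_isUnit hP) (hPΓ γ hγ)
    rw [← h2, Complex.conj_conj, trace_inv hJ (hle hγ)]
  intro z hz
  exact h1 hz

end general

variable {m : Type*} [Fintype m] [DecidableEq m]
variable {Γ₁ Γ₂ : Subgroup (GL' (m ⊕ Unit))} {Γ₃ : Subgroup (GL' m)}

/-- If the conjugates of the traces of a tilted hybrid are bounded then the conjugate of the squared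
cosine of the angle is a real number in `[0, 1)`. -/
theorem angle_of_bounded (hm : 2 ≤ Fintype.card m) (h3 : Spans (coeR Γ₃)) (h1 : Spans (coeR Γ₁))
    (h2 : Spans (coeR Γ₂)) (hle1 : Γ₃.map extendGL ≤ Γ₁) (hle2 : Γ₃.map extendGL ≤ Γ₂)
    {σ : ℂ ≃+* ℂ} {b : ℂ} (hb : ‖b‖ < 1) (hσ : TracesBounded σ (tiltedHybrid b Γ₁ Γ₂)) :
    ∃ r : ℝ, 0 ≤ r ∧ r < 1 ∧ σ (b * starRingEnd ℂ b) = r := by
  obtain ⟨P, hP, hPG⟩ := form_of_bounded (spans_tilted (by omega) h1 h2 hb) hσ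
  obtain ⟨Q, a, d, a', d', _, _, q3, _, r1, r2⟩ := blocks hm h3 h1 h2 hle1 hle2 σ b hPG
  have hP1 : IsPos (pl Q a 0 0 d) := by
    rw [← q3]
    exact isPos_congr hP (tm_neg_mul (σ b))
  obtain ⟨x, hx, hx'⟩ := isPos_diag hP1 (Sum.inl (Sum.inr ()))
  obtain ⟨y, hy, hy'⟩ := isPos_diag hP1 (Sum.inr ())
  have hx'' : a = x := hx'
  have hy'' : d = y := hy'
  have e1 : star (σ b) * a * σ b = ((x * ‖σ b‖ ^ 2 : ℝ) : ℂ) := by
    have : star (σ b) * σ b = ((‖σ b‖ ^ 2 : ℝ) : ℂ) := by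
      change starRingEnd ℂ (σ b) * σ b = _
      rw [Complex.conj_mul']
      push_cast
      rfl
    rw [mul_right_comm, this, hx'']
    push_cast
    ring
  have hpos : 0 < x * ‖σ b‖ ^ 2 + y := by positivity
  have e2 : a' = ((x * ‖σ b‖ ^ 2 + y : ℝ) : ℂ) := by
    rw [r2, e1, hy'']
    push_cast
    ring
  have hne : ((x * ‖σ b‖ ^ 2 + y : ℝ) : ℂ) ≠ 0 := Complex.ofReal_ne_zero.2 hpos.ne'
  refine ⟨x * ‖σ b‖ ^ 2 / (x * ‖σ b‖ ^ 2 + y), by positivity, ?_, ?_⟩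
  · rw [div_lt_one hpos]
    linarith
  · rw [map_mul, Complex.ofReal_div, eq_div_iff hne, ← e1, ← e2]
    linear_combination (-(σ b)) * r1

/-- The converse, if the trace field of the hybrid is that of the first group. -/
theorem bounded_of_angle (hm : 2 ≤ Fintype.card m) {J : Matrix m m ℂ} (hJ : IsUnit J)
    (h3 : Spans (coeR Γ₃)) (h1 : Spans (coeR Γ₁))
    (h2 : Spans (coeR Γ₂)) (hle1 : Γ₃.map extendGL ≤ Γ₁) (hle2 : Γ₃.map extendGL ≤ Γ₂)
    (hs1 : Γ₁ ≤ SU (extend J)) {σ : ℂ ≃+* ℂ} {b : ℂ} (hb : ‖b‖ < 1)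
    {H : Matrix ((m ⊕ Unit) ⊕ Unit) ((m ⊕ Unit) ⊕ Unit) ℂ} (hH : IsUnit H)
    (hG : tiltedHybrid b Γ₁ Γ₂ ≤ SU H)
    (hfield : traceField (tiltedHybrid b Γ₁ Γ₂) = traceField Γ₁)
    (hb1 : TracesBounded σ Γ₁) (hb2 : TracesBounded σ Γ₂)
    (hr : ∃ r : ℝ, r < 1 ∧ σ (b * starRingEnd ℂ b) = r) :
    TracesBounded σ (tiltedHybrid b Γ₁ Γ₂) := by
  obtain ⟨r, hr1, hr⟩ := hr
  have hm' : 2 ≤ Fintype.card (m ⊕ Unit) := by
    rw [Fintype.card_sum]
    omega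
  obtain ⟨i⟩ : Nonempty m := by
    rw [← Fintype.card_pos_iff]
    omega
  -- the conjugation
  have hcomm := commutes_of_bounded (isUnit_extend hJ) hs1 h1 hb1
  have hsG := spans_tilted (b := b) (by omega) h1 h2 hb
  obtain ⟨P, hPu, hP⟩ := exists_intertwiner (spans_tw σ hsG) (spans_dual (spans_tw σ hsG)) (by
    intro g
    have e1 : (tw σ (coeR (tiltedHybrid b Γ₁ Γ₂)) g).trace = σ g.1.1.trace := by
      rw [← tr_map]
      rfl
    have e2 : (dual (tw σ (coeR (tiltedHybrid b Γ₁ Γ₂))) g).trace =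
        starRingEnd ℂ (σ (g.1⁻¹).1.trace) := by
      rw [dual_apply, Matrix.trace_conjTranspose, ← tr_map]
      rfl
    rw [e1, e2, trace_inv hH (hG g.2), hcomm _ (by rw [← hfield]; exact trace_mem g.2),
      Complex.conj_conj])
  have hPG : ∀ g ∈ tiltedHybrid b Γ₁ Γ₂, dual (tw σ (co _)) g * P = P * tw σ (co _) g :=
    fun g hg => hP ⟨g, hg⟩
  obtain ⟨Q, a, d, a', d', q1, q2, q3, q4, r1, r2⟩ := blocks hm h3 h1 h2 hle1 hle2 σ b hPG
  -- the forms of the two groups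
  have key : ∀ Γ : Subgroup (GL' (m ⊕ Unit)), Spans (coeR Γ) → Γ₃.map extendGL ≤ Γ →
      TracesBounded σ Γ → ∀ c : ℂ, IsUnit (dg Q c) →
      (∀ γ ∈ Γ, dual (tw σ (co _)) γ * dg Q c = dg Q c * tw σ (co _) γ) →
      ∃ (l : ℂ) (Q' : Matrix m m ℂ) (κ : ℝ), l ≠ 0 ∧ 0 < κ ∧ IsPos (dg Q' (κ : ℂ)) ∧
        Q = l • Q' ∧ c = l * κ := by
    intro Γ hΓ hle hσ c hc hcΓ
    obtain ⟨K, hK, hKΓ⟩ := form_of_bounded hΓ hσ
    obtain ⟨Q', κ, rfl, _⟩ := block_form hm (spans_tw σ h3) (spans_dual (spans_tw σ h3)) (M := K) (by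
      intro γ
      have h4 := hKΓ (extendGL γ.1) (hle ⟨γ.1, γ.2, rfl⟩)
      rw [dual_tw_extend, tw_extend] at h4
      exact h4)
    obtain ⟨x, hx, hx'⟩ := isPos_diag hK (Sum.inr ())
    have hx'' : κ = x := by
      rw [← hx']
      unfold dg
      simp
    subst hx''
    have k1 : ∀ γ : Γ, dual (tw σ (coeR Γ)) γ * dg Q c = dg Q c * tw σ (coeR Γ) γ :=
      fun γ => hcΓ γ.1 γ.2
    have k2 : ∀ γ : Γ, dual (tw σ (coeR Γ)) γ * dg Q' (x : ℂ) = dg Q' (x : ℂ) * tw σ (coeR Γ) γ :=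
      fun γ => hKΓ γ.1 γ.2
    obtain ⟨l, hl, hl'⟩ := proportional hm' (spans_tw σ hΓ) k1 k2 hc (isPos_isUnit hK)
    refine ⟨l, Q', x, hl, hx, hK, ?_, ?_⟩
    · ext i j
      exact congrFun (congrFun hl' (Sum.inl i)) (Sum.inl j)
    · have h4 := congrFun (congrFun hl' (Sum.inr ())) (Sum.inr ())
      unfold dg at h4
      simpa using h4
  have hu1 : IsUnit (dg Q a) := by
    have h4 : IsUnit (dg (dg Q a) d) := by
      rw [dg_dg, ← q3]
      refine (IsUnit.mul (IsUnit.mul ?_ hPu) ?_)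
      · exact IsUnit.of_mul_eq_one ((tm (-(σ b)))ᴴ) (by
          rw [← Matrix.conjTranspose_mul, tm_neg_mul, Matrix.conjTranspose_one])
      · exact IsUnit.of_mul_eq_one _ (tm_mul_neg (σ b))
    exact (dg_isUnit h4).1
  have hu2 : IsUnit (dg Q a') := by
    have h4 : IsUnit (dg (dg Q a') d') := by
      rw [dg_dg, ← q4]
      refine (IsUnit.mul (IsUnit.mul ?_ ?_) ?_)
      · exact IsUnit.of_mul_eq_one ((tm (-(σ (starRingEnd ℂ b))))ᴴ) (by
          rw [← Matrix.conjTranspose_mul, tm_neg_mul, Matrix.conjTranspose_one])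
      · exact hPu.map sw
      · exact IsUnit.of_mul_eq_one _ (tm_mul_neg (σ (starRingEnd ℂ b)))
    exact (dg_isUnit h4).1
  obtain ⟨l, Q₁, κ₁, hl, hκ₁, hp1, hQ1, ha⟩ := key Γ₁ h1 hle1 hb1 a hu1 q1
  obtain ⟨l', Q₂, κ₂, hl', hκ₂, hp2, hQ2, ha'⟩ := key Γ₂ h2 hle2 hb2 a' hu2 q2
  obtain ⟨x, hx, hx'⟩ := isPos_diag hp1 (Sum.inl i)
  obtain ⟨y, hy, hy'⟩ := isPos_diag hp2 (Sum.inl i)
  have hx'' : Q₁ i i = x := hx'
  have hy'' : Q₂ i i = y := hy'
  have hll : l' = l * ((x / y : ℝ) : ℂ) := by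
    have h4 : Q i i = l * x := by
      rw [hQ1, ← hx'']
      rfl
    have h5 : Q i i = l' * y := by
      rw [hQ2, ← hy'']
      rfl
    have hy0 : (y : ℂ) ≠ 0 := Complex.ofReal_ne_zero.2 hy.ne'
    rw [Complex.ofReal_div]
    field_simp
    rw [← h4, h5]
  set κ : ℝ := x / y * κ₂ with hκ
  have hκ0 : 0 < κ := by positivity
  have ha'' : a' = l * κ := by
    rw [ha', hll, hκ]
    push_cast
    ring
  have hnorm : star (σ b) * σ b = ((‖σ b‖ ^ 2 : ℝ) : ℂ) := by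
    change starRingEnd ℂ (σ b) * σ b = _
    rw [Complex.conj_mul']
    push_cast
    rfl
  -- the angle
  have hangle : κ₁ * ‖σ b‖ ^ 2 = κ * r := by
    have h4 : (l : ℂ) * ((κ₁ * ‖σ b‖ ^ 2 : ℝ) : ℂ) = l * ((κ * r : ℝ) : ℂ) := by
      have h5 : star (σ b) * (l * κ₁) * σ b = l * κ * (σ b * σ (starRingEnd ℂ b)) := by
        rw [← ha, ← ha'']
        linear_combination (σ b) * r1
      rw [← map_mul, hr] at h5
      push_cast at hnorm ⊢
      rw [← hnorm]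
      linear_combination h5
    exact Complex.ofReal_injective (mul_left_cancel₀ hl h4)
  have hd : d = l * ((κ * (1 - r) : ℝ) : ℂ) := by
    have h4 : d = a' - star (σ b) * a * σ b := by rw [r2]; ring
    have h5 : star (σ b) * a * σ b = l * ((κ₁ * ‖σ b‖ ^ 2 : ℝ) : ℂ) := by
      rw [ha]
      push_cast at hnorm ⊢
      rw [← hnorm]
      ring
    rw [h4, h5, hangle, ha'']
    push_cast
    ring
  have hpos : IsPos (dn (dg Q₁ (κ₁ : ℂ)) ((κ * (1 - r) : ℝ) : ℂ)) :=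
    isPos_dn hp1 (mul_pos hκ0 (by linarith))
  have hP1 : (tm (σ b))ᴴ * P * tm (σ b) = l • dn (dg Q₁ (κ₁ : ℂ)) ((κ * (1 - r) : ℝ) : ℂ) := by
    rw [q3, dn_dg, pl_smul, ← hQ1, ← ha, ← hd, mul_zero]
  obtain ⟨C, hC⟩ := trace_bounded hpos
  refine ⟨C, fun g hg => ?_⟩
  have h4 := hPG g hg
  -- the conjugated matrix
  have h5 : (tw σ (co _) g)ᴴ * P * tw σ (co _) g = P := by
    have e3 : (tw σ (co _) g)ᴴ * dual (tw σ (co ((m ⊕ Unit) ⊕ Unit))) g = 1 := by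
      rw [dual_apply, ← Matrix.conjTranspose_mul, ← map_mul, inv_mul_cancel, map_one,
        Matrix.conjTranspose_one]
    rw [mul_assoc, ← h4, ← mul_assoc, e3, one_mul]
  have h6 := hC (tm (-(σ b)) * tw σ (co _) g * tm (σ b)) (by
    have e5 : (tm (-(σ b)))ᴴ * ((tm (σ b))ᴴ * P * tm (σ b)) * tm (-(σ b)) = P := by
      have h5 : (tm (-(σ b)))ᴴ * (tm (σ b) : Matrix ((m ⊕ Unit) ⊕ Unit) _ ℂ)ᴴ = 1 := by
        rw [← Matrix.conjTranspose_mul, tm_mul_neg, Matrix.conjTranspose_one]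
      calc (tm (-(σ b)))ᴴ * ((tm (σ b))ᴴ * P * tm (σ b)) * tm (-(σ b)) =
          ((tm (-(σ b)))ᴴ * (tm (σ b))ᴴ) * P * (tm (σ b) * tm (-(σ b))) := by
            simp only [mul_assoc]
        _ = P := by rw [h5, tm_mul_neg, one_mul, mul_one]
    have e6 : (tm (-(σ b)) * tw σ (co _) g * tm (σ b))ᴴ * ((tm (σ b))ᴴ * P * tm (σ b)) *
        (tm (-(σ b)) * tw σ (co _) g * tm (σ b)) = (tm (σ b))ᴴ * P * tm (σ b) := by
      rw [Matrix.conjTranspose_mul, Matrix.conjTranspose_mul]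
      calc _ = (tm (σ b))ᴴ * ((tw σ (co _) g)ᴴ * ((tm (-(σ b)))ᴴ *
            ((tm (σ b))ᴴ * P * tm (σ b)) * tm (-(σ b))) * tw σ (co _) g) * tm (σ b) := by
            simp only [mul_assoc]
        _ = _ := by rw [e5, h5]
    rw [hP1, Matrix.mul_smul, Matrix.smul_mul] at e6
    exact smul_right_injective _ hl e6)
  have h7 : (tm (-(σ b)) * tw σ (co _) g * tm (σ b)).trace = σ g.1.trace := by
    rw [Matrix.trace_mul_comm, ← mul_assoc, tm_mul_neg, one_mul, ← tr_map]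
    rfl
  rwa [h7] at h6

end Pool.Agent.K4H40.TH
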