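import Mathlib
import Pool.Agent.K4H40.TH.Crit

/-!
# Tilted hybrids in special unitary groups and Vinberg's condition
-/

set_option autoImplicit false
set_option linter.unusedSectionVars false


namespace Pool.Agent.K4H40.TH

open Matrix Pool.Agent.K4H34.HH

open scoped ComplexOrder

section general

variable {N : Type*} [Fintype N] [DecidableEq N]

theorem su_conj (P : GL' N) {H H' : Matrix N N ℂ} (h : P.1ᴴ * H * P.1 = H') {γ : GL' N}
    (hγ : γ ∈ SU H') : P * γ * P⁻¹ ∈ SU H := by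
  obtain ⟨h1, h2⟩ := hγ
  refine ⟨?_, ?_⟩
  · have h3 : ((P⁻¹).1)ᴴ * P.1ᴴ = 1 := by
      rw [← Matrix.conjTranspose_mul, P.mul_inv, Matrix.conjTranspose_one]
    rw [Units.val_mul, Units.val_mul, Matrix.conjTranspose_mul, Matrix.conjTranspose_mul]
    calc ((P⁻¹).1)ᴴ * (γ.1ᴴ * P.1ᴴ) * H * (P.1 * γ.1 * (P⁻¹).1)
        = ((P⁻¹).1)ᴴ * (γ.1ᴴ * (P.1ᴴ * H * P.1) * γ.1) * (P⁻¹).1 := by simp only [mul_assoc]
      _ = ((P⁻¹).1)ᴴ * (P.1ᴴ * H * P.1) * (P⁻¹).1 := by rw [h, h1]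
      _ = (((P⁻¹).1)ᴴ * P.1ᴴ) * H * (P.1 * (P⁻¹).1) := by simp only [mul_assoc]
      _ = H := by rw [h3, P.mul_inv, one_mul, mul_one]
  · rw [Units.val_mul, Units.val_mul, Matrix.det_mul, Matrix.det_mul, h2, mul_one,
      ← Matrix.det_mul, P.mul_inv, Matrix.det_one]

end general

variable {m : Type*} [Fintype m] [DecidableEq m]

theorem tiltedForm_congr (J : Matrix m m ℂ) (b : ℂ) :
    (tm b)ᴴ * tiltedForm J b * tm b = dn (extend J) (1 - b * starRingEnd ℂ b) := by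
  have h1 : dn (extend J) (1 - b * starRingEnd ℂ b) = pl J 1 0 0 (1 - b * starRingEnd ℂ b) := by
    have : extend J = dg J 1 := by
      unfold dg
      rw [one_smul]
      rfl
    rw [this, dn_dg]
  rw [h1]
  unfold tm tiltedForm
  rw [pl_star, pl_mul, pl_mul]
  simp only [Matrix.conjTranspose_one, one_mul, mul_one, star_one, star_zero, star_neg, zero_mul,
    mul_zero, add_zero, zero_add, neg_mul]
  congr 1
  · ring
  · change -(starRingEnd ℂ b) + starRingEnd ℂ b = 0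
    ring
  · change (-(starRingEnd ℂ b) + starRingEnd ℂ b) * -b + (-(starRingEnd ℂ b * b) + 1) = _
    ring

theorem dn_mem {J : Matrix (m ⊕ Unit) (m ⊕ Unit) ℂ} {γ : GL' (m ⊕ Unit)} (hγ : γ ∈ SU J) (d : ℂ) :
    extendGL γ ∈ SU (dn J d) := by
  obtain ⟨h1, h2⟩ := hγ
  refine ⟨?_, ?_⟩
  · change (extend γ.1)ᴴ * dn J d * extend γ.1 = dn J d
    rw [star_extend]
    unfold dn
    change Matrix.fromBlocks γ.1ᴴ 0 0 1 * Matrix.fromBlocks J 0 0 (d • 1) *
      Matrix.fromBlocks γ.1 0 0 1 = Matrix.fromBlocks J 0 0 (d • 1)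
    rw [Matrix.fromBlocks_multiply, Matrix.fromBlocks_multiply]
    simp [h1]
  · change (Matrix.fromBlocks γ.1 0 0 1).det = 1
    rw [Matrix.det_fromBlocks_zero₂₁, h2, one_mul, Matrix.det_one]

theorem tilt_mem {J : Matrix m m ℂ} {γ : GL' (m ⊕ Unit)} (hγ : γ ∈ SU (extend J)) (b : ℂ) :
    tiltGL b γ ∈ SU (tiltedForm J b) := by
  rw [tiltGL_apply]
  exact su_conj (tu b) (tiltedForm_congr J b) (dn_mem hγ _)

theorem sw_tiltedForm (J : Matrix m m ℂ) (b : ℂ) :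
    sw (tiltedForm J (starRingEnd ℂ b)) = tiltedForm J b := by
  unfold tiltedForm
  rw [sw_pl, Complex.conj_conj]

theorem swap_mem {H : Matrix ((m ⊕ Unit) ⊕ Unit) ((m ⊕ Unit) ⊕ Unit) ℂ}
    {x : GL' ((m ⊕ Unit) ⊕ Unit)} (hx : x ∈ SU H) : swapGL x ∈ SU (sw H) := by
  obtain ⟨h1, h2⟩ := hx
  refine ⟨?_, ?_⟩
  · change (sw x.1)ᴴ * sw H * sw x.1 = sw H
    rw [star_sw, ← map_mul, ← map_mul, h1]
  · change (sw x.1).det = 1
    rw [← h2]
    exact Matrix.det_reindexAlgEquiv ℂ ℂ (swapLast (m := m)) x.1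

variable {Γ₁ Γ₂ : Subgroup (GL' (m ⊕ Unit))} {Γ₃ : Subgroup (GL' m)}

theorem tilted_le {J : Matrix m m ℂ} (h1 : Γ₁ ≤ SU (extend J)) (h2 : Γ₂ ≤ SU (extend J)) (b : ℂ) :
    tiltedHybrid b Γ₁ Γ₂ ≤ SU (tiltedForm J b) := by
  unfold tiltedHybrid
  refine sup_le ?_ ?_
  · rintro _ ⟨γ, hγ, rfl⟩
    exact tilt_mem (h1 hγ) b
  · rintro _ ⟨_, ⟨γ, hγ, rfl⟩, rfl⟩
    have h3 := swap_mem (tilt_mem (h2 hγ) (starRingEnd ℂ b))
    rwa [sw_tiltedForm] at h3

theorem isUnit_tiltedForm {J : Matrix m m ℂ} (hJ : IsUnit J) {b : ℂ} (hb : ‖b‖ < 1) :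
    IsUnit (tiltedForm J b) := by
  have h1 : (1 - b * starRingEnd ℂ b : ℂ) ≠ 0 := by
    rw [Complex.mul_conj']
    intro h
    have h2 : ‖b‖ ^ 2 = 1 := by
      have h3 : ((‖b‖ : ℂ)) ^ 2 = 1 := by linear_combination -h
      exact_mod_cast h3
    have h4 := norm_nonneg b
    nlinarith
  have h2 : IsUnit (dn (extend J) (1 - b * starRingEnd ℂ b)) := by
    rw [Matrix.isUnit_iff_isUnit_det, isUnit_iff_ne_zero]
    unfold dn
    rw [Matrix.det_fromBlocks_zero₂₁]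
    have h3 := isUnit_extend hJ
    rw [Matrix.isUnit_iff_isUnit_det, isUnit_iff_ne_zero] at h3
    refine mul_ne_zero h3 ?_
    simpa using h1
  have h3 : tiltedForm J b = (tm (-b))ᴴ * dn (extend J) (1 - b * starRingEnd ℂ b) * tm (-b) := by
    rw [← tiltedForm_congr]
    have h5 : (tm (-b))ᴴ * (tm b : Matrix ((m ⊕ Unit) ⊕ Unit) _ ℂ)ᴴ = 1 := by
      rw [← Matrix.conjTranspose_mul, tm_mul_neg, Matrix.conjTranspose_one]
    symm
    calc (tm (-b))ᴴ * ((tm b)ᴴ * tiltedForm J b * tm b) * tm (-b) =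
        ((tm (-b))ᴴ * (tm b)ᴴ) * tiltedForm J b * (tm b * tm (-b)) := by simp only [mul_assoc]
      _ = tiltedForm J b := by rw [h5, tm_mul_neg, one_mul, mul_one]
  rw [h3]
  refine (IsUnit.mul (IsUnit.mul ?_ h2) ?_)
  · exact IsUnit.of_mul_eq_one ((tm b)ᴴ) (by
      rw [← Matrix.conjTranspose_mul, tm_mul_neg, Matrix.conjTranspose_one])
  · exact IsUnit.of_mul_eq_one _ (tm_neg_mul b)

/-! ### restriction to the two groups -/

theorem tfixed_left {σ : ℂ ≃+* ℂ} {b : ℂ} (h : TracesFixed σ (tiltedHybrid b Γ₁ Γ₂)) :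
    TracesFixed σ Γ₁ := by
  intro γ hγ
  have h1 := h _ (tleft_mem hγ)
  rw [trace_tilt, map_add, map_one] at h1
  exact add_right_cancel h1

theorem tfixed_right {σ : ℂ ≃+* ℂ} {b : ℂ} (h : TracesFixed σ (tiltedHybrid b Γ₁ Γ₂)) :
    TracesFixed σ Γ₂ := by
  intro γ hγ
  have h1 := h _ (tright_mem hγ)
  rw [trace_swapGL, trace_tilt, map_add, map_one] at h1
  exact add_right_cancel h1

theorem tconj_left {σ : ℂ ≃+* ℂ} {b : ℂ} (h : TracesConjugated σ (tiltedHybrid b Γ₁ Γ₂)) :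
    TracesConjugated σ Γ₁ := by
  intro γ hγ
  have h1 := h _ (tleft_mem hγ)
  rw [trace_tilt, map_add, map_one, map_add, map_one] at h1
  exact add_right_cancel h1

theorem tconj_right {σ : ℂ ≃+* ℂ} {b : ℂ} (h : TracesConjugated σ (tiltedHybrid b Γ₁ Γ₂)) :
    TracesConjugated σ Γ₂ := by
  intro γ hγ
  have h1 := h _ (tright_mem hγ)
  rw [trace_swapGL, trace_tilt, map_add, map_one, map_add, map_one] at h1
  exact add_right_cancel h1

theorem tbounded_left {σ : ℂ ≃+* ℂ} {b : ℂ} (h : TracesBounded σ (tiltedHybrid b Γ₁ Γ₂)) :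
    TracesBounded σ Γ₁ := by
  obtain ⟨C, hC⟩ := h
  refine ⟨C + 1, fun γ hγ => ?_⟩
  have h1 := hC _ (tleft_mem hγ)
  rw [trace_tilt, map_add, map_one] at h1
  have h2 := norm_sub_le (σ γ.1.trace + 1) 1
  rw [add_sub_cancel_right, norm_one] at h2
  linarith

theorem conj_iff {N : Type*} [Fintype N] [DecidableEq N] (σ : ℂ ≃+* ℂ) (Γ : Subgroup (GL' N)) :
    TracesConjugated σ Γ ↔ ∀ z ∈ traceField Γ, σ z = starRingEnd ℂ z := by
  constructor
  · intro h z hz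
    have h1 : traceField Γ ≤ (σ : ℂ →+* ℂ).eqLocusField (starRingEnd ℂ) := by
      unfold traceField
      rw [Subfield.closure_le]
      rintro _ ⟨γ, hγ, rfl⟩
      exact h γ hγ
    exact h1 hz
  · intro h γ hγ
    exact h _ (trace_mem hγ)

/-- **The criterion for tilted hybrids.** -/
theorem tilted_iff (hm : 2 ≤ Fintype.card m) {J : Matrix m m ℂ} (hJ : IsUnit J)
    (hs1 : Γ₁ ≤ SU (extend J)) (hs2 : Γ₂ ≤ SU (extend J))
    (h3 : Spans (coeR Γ₃)) (h1 : Spans (coeR Γ₁))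
    (h2 : Spans (coeR Γ₂)) (hle1 : Γ₃.map extendGL ≤ Γ₁) (hle2 : Γ₃.map extendGL ≤ Γ₂)
    (hu : HasUnboundedTraces Γ₃) (hV1 : VinbergCondition Γ₁) (hV2 : VinbergCondition Γ₂)
    (hn1 : HasNonrealTrace Γ₁) (hn2 : HasNonrealTrace Γ₂) {b : ℂ} (hb : ‖b‖ < 1) :
    VinbergCondition (tiltedHybrid b Γ₁ Γ₂) ↔
      traceField (tiltedHybrid b Γ₁ Γ₂) = traceField Γ₁ ∧
      traceField (tiltedHybrid b Γ₁ Γ₂) = traceField Γ₂ ∧
      ∀ σ : ℂ ≃+* ℂ, TracesBounded σ Γ₁ → ∃ r : ℝ, r < 1 ∧ σ (b * starRingEnd ℂ b) = r := by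
  constructor
  · intro hV
    refine ⟨(field_eq_iff _ _).2 fun σ => ⟨fun hf => ?_, tfixed_left⟩,
      (field_eq_iff _ _).2 fun σ => ⟨fun hf => ?_, tfixed_right⟩, fun σ hσ => ?_⟩
    · rcases hV σ with hb' | hf' | hc'
      · exact absurd (fixed_of_extend hle1 hf)
          (not_bounded_fixed hu (bounded_of_extend hle1 (tbounded_left hb')))
      · exact hf'
      · exact absurd (tconj_left hc') (not_fixed_conj hn1 hf)
    · rcases hV σ with hb' | hf' | hc'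
      · exact absurd (fixed_of_extend hle2 hf)
          (not_bounded_fixed hu (bounded_of_extend hle1 (tbounded_left hb')))
      · exact hf'
      · exact absurd (tconj_right hc') (not_fixed_conj hn2 hf)
    · rcases hV σ with hb' | hf' | hc'
      · obtain ⟨r, _, hr1, hr⟩ := angle_of_bounded hm h3 h1 h2 hle1 hle2 hb hb'
        exact ⟨r, hr1, hr⟩
      · exact absurd (fixed_of_extend hle1 (tfixed_left hf'))
          (not_bounded_fixed hu (bounded_of_extend hle1 hσ))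
      · exact absurd (conj_of_extend hle1 (tconj_left hc'))
          (not_bounded_conj hu (bounded_of_extend hle1 hσ))
  · rintro ⟨e1, e2, e3⟩ σ
    rcases hV1 σ with hb1 | hf1 | hc1
    · left
      have hb2 : TracesBounded σ Γ₂ := by
        rcases hV2 σ with hb2 | hf2 | hc2
        · exact hb2
        · exact absurd (fixed_of_extend hle2 hf2)
            (not_bounded_fixed hu (bounded_of_extend hle1 hb1))
        · exact absurd (conj_of_extend hle2 hc2)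
            (not_bounded_conj hu (bounded_of_extend hle1 hb1))
      exact bounded_of_angle hm hJ h3 h1 h2 hle1 hle2 hs1 hb (isUnit_tiltedForm hJ hb)
        (tilted_le hs1 hs2 b) e1 hb1 hb2 (e3 σ hb1)
    · right
      left
      rw [fixed_iff] at hf1 ⊢
      rwa [e1]
    · right
      right
      rw [conj_iff] at hc1 ⊢
      rwa [e1]

end Pool.Agent.K4H40.TH
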