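import Mathlib
import Pool.Agent.K4H40.TH.Su

/-!
# Polynomial functions of matrices and the traces of products
-/

set_option autoImplicit false
set_option linter.unusedSectionVars false


namespace Pool.Agent.K4H40.TH

open Matrix Pool.Agent.K4H34.HH

section poly

variable {N : Type*} [Fintype N] [DecidableEq N]

/-- A function of matrices which is a polynomial in the entries. -/
def PolyFun (φ : Matrix N N ℂ → ℂ) : Prop :=
  ∃ p : MvPolynomial (N × N) ℂ, ∀ A : Matrix N N ℂ,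
    MvPolynomial.eval (fun x => A x.1 x.2) p = φ A

theorem PolyFun.const (c : ℂ) : PolyFun (fun _ : Matrix N N ℂ => c) :=
  ⟨MvPolynomial.C c, fun _ => by simp⟩

theorem PolyFun.entry (i j : N) : PolyFun (fun A : Matrix N N ℂ => A i j) :=
  ⟨MvPolynomial.X (i, j), fun _ => by simp⟩

theorem PolyFun.add {φ ψ : Matrix N N ℂ → ℂ} (h : PolyFun φ) (h' : PolyFun ψ) :
    PolyFun (fun A => φ A + ψ A) := by
  obtain ⟨p, hp⟩ := h
  obtain ⟨q, hq⟩ := h'
  exact ⟨p + q, fun A => by rw [map_add, hp, hq]⟩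

theorem PolyFun.mul {φ ψ : Matrix N N ℂ → ℂ} (h : PolyFun φ) (h' : PolyFun ψ) :
    PolyFun (fun A => φ A * ψ A) := by
  obtain ⟨p, hp⟩ := h
  obtain ⟨q, hq⟩ := h'
  exact ⟨p * q, fun A => by rw [map_mul, hp, hq]⟩

theorem PolyFun.sum {ι : Type*} (s : Finset ι) {φ : ι → Matrix N N ℂ → ℂ}
    (h : ∀ i ∈ s, PolyFun (φ i)) : PolyFun (fun A => ∑ i ∈ s, φ i A) := by
  classical
  induction s using Finset.induction_on with
  | empty => simpa using PolyFun.const (N := N) 0
  | insert i s hi ih =>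
    have h1 := (h i (Finset.mem_insert_self i s)).add
      (ih fun j hj => h j (Finset.mem_insert_of_mem hj))
    simpa [Finset.sum_insert hi] using h1

theorem PolyFun.adj (i j : N) : PolyFun (fun A : Matrix N N ℂ => A.adjugate i j) := by
  refine ⟨(Matrix.mvPolynomialX N N ℂ).adjugate i j, fun A => ?_⟩
  have h1 : (Matrix.mvPolynomialX N N ℂ).map (MvPolynomial.eval fun x => A x.1 x.2) = A := by
    ext i j
    simp
  have h3 := RingHom.map_adjugate (MvPolynomial.eval fun x => A x.1 x.2)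
    (Matrix.mvPolynomialX N N ℂ)
  have h4 := congrFun (congrFun h3 i) j
  rw [RingHom.mapMatrix_apply, RingHom.mapMatrix_apply, h1] at h4
  exact h4

/-- Two polynomial functions which agree on a Zariski dense group agree on all matrices of
determinant one. -/
theorem PolyFun.ext_dense {Γ : Subgroup (GL' N)} (hΓ : IsZariskiDense Γ)
    {φ ψ : Matrix N N ℂ → ℂ} (h : PolyFun φ) (h' : PolyFun ψ) (he : ∀ γ ∈ Γ, φ γ.1 = ψ γ.1) :
    ∀ A : Matrix N N ℂ, A.det = 1 → φ A = ψ A := by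
  obtain ⟨p, hp⟩ := h
  obtain ⟨q, hq⟩ := h'
  intro A hA
  have h1 := hΓ (p - q) (fun γ hγ => by rw [map_sub, hp, hq, he γ hγ, sub_self]) A hA
  rwa [map_sub, hp, hq, sub_eq_zero] at h1

variable {M : Type*} [Fintype M] [DecidableEq M]

/-- A matrix of polynomial functions. -/
def PolyMat (Φ : Matrix N N ℂ → Matrix M M ℂ) : Prop := ∀ i j, PolyFun (fun A => Φ A i j)

theorem PolyMat.const (C : Matrix M M ℂ) : PolyMat (fun _ : Matrix N N ℂ => C) :=
  fun _ _ => PolyFun.const _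

theorem PolyMat.id : PolyMat (fun A : Matrix N N ℂ => A) := fun i j => PolyFun.entry i j

theorem PolyMat.adj : PolyMat (fun A : Matrix N N ℂ => A.adjugate) := fun i j => PolyFun.adj i j

theorem PolyMat.mul {Φ Ψ : Matrix N N ℂ → Matrix M M ℂ} (h : PolyMat Φ) (h' : PolyMat Ψ) :
    PolyMat (fun A => Φ A * Ψ A) := by
  intro i j
  have h1 : (fun A => (Φ A * Ψ A) i j) = fun A => ∑ k, Φ A i k * Ψ A k j := by
    funext A
    rw [Matrix.mul_apply]
  rw [h1]
  exact PolyFun.sum _ fun k _ => (h i k).mul (h' k j)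

theorem PolyMat.transpose {Φ : Matrix N N ℂ → Matrix M M ℂ} (h : PolyMat Φ) :
    PolyMat (fun A => (Φ A)ᵀ) := fun i j => h j i

theorem PolyMat.trace {Φ : Matrix N N ℂ → Matrix M M ℂ} (h : PolyMat Φ) :
    PolyFun (fun A => (Φ A).trace) := PolyFun.sum _ fun i _ => h i i

theorem PolyMat.extend {Φ : Matrix N N ℂ → Matrix M M ℂ} (h : PolyMat Φ) :
    PolyMat (fun A => extend (Φ A)) := by
  intro i j
  rcases i with i | i <;> rcases j with j | j
  · exact h i j
  · exact PolyFun.const 0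
  · exact PolyFun.const 0
  · exact PolyFun.const _

end poly

variable {m : Type*} [Fintype m] [DecidableEq m]

theorem PolyMat.sw {N : Type*} [Fintype N] [DecidableEq N]
    {Φ : Matrix N N ℂ → Matrix ((m ⊕ Unit) ⊕ Unit) ((m ⊕ Unit) ⊕ Unit) ℂ} (h : PolyMat Φ) :
    PolyMat (fun A => sw (Φ A)) := fun _ _ => h _ _

/-- The trace of the product of an element of the first group and one of the second group. -/
noncomputable def F (β γ : ℂ) (X Y : Matrix (m ⊕ Unit) (m ⊕ Unit) ℂ) : ℂ :=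
  ((tm β * extend X * tm (-β)) * sw (tm γ * extend Y * tm (-γ))).trace

theorem polyF_left {N : Type*} [Fintype N] [DecidableEq N] (β γ : ℂ)
    {Φ : Matrix N N ℂ → Matrix (m ⊕ Unit) (m ⊕ Unit) ℂ} (h : PolyMat Φ)
    (Y : Matrix (m ⊕ Unit) (m ⊕ Unit) ℂ) : PolyFun (fun A => F β γ (Φ A) Y) :=
  ((((PolyMat.const _).mul h.extend).mul (PolyMat.const _)).mul (PolyMat.const _)).trace

theorem polyF_right {N : Type*} [Fintype N] [DecidableEq N] (β γ : ℂ)
    {Φ : Matrix N N ℂ → Matrix (m ⊕ Unit) (m ⊕ Unit) ℂ} (h : PolyMat Φ)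
    (X : Matrix (m ⊕ Unit) (m ⊕ Unit) ℂ) : PolyFun (fun A => F β γ X (Φ A)) :=
  ((PolyMat.const _).mul (((PolyMat.const _).mul h.extend).mul (PolyMat.const _)).sw).trace

/-- The matrix of a transformation in the first group. -/
def lm (β : ℂ) (X : Matrix (m ⊕ Unit) (m ⊕ Unit) ℂ) :
    Matrix ((m ⊕ Unit) ⊕ Unit) ((m ⊕ Unit) ⊕ Unit) ℂ :=
  fun x y => match x, y with
    | Sum.inl x, Sum.inl y => X x y
    | Sum.inl (Sum.inl i), Sum.inr _ => β * X (Sum.inl i) (Sum.inr ())
    | Sum.inl (Sum.inr _), Sum.inr _ => β * (X (Sum.inr ()) (Sum.inr ()) - 1)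
    | Sum.inr _, Sum.inl _ => 0
    | Sum.inr _, Sum.inr _ => 1

theorem lm_eq (β : ℂ) (X : Matrix (m ⊕ Unit) (m ⊕ Unit) ℂ) :
    tm β * extend X * tm (-β) = lm β X := by
  have h1 : tm β * extend X = lm β X * tm β := by
    ext x y
    rw [Matrix.mul_apply, Matrix.mul_apply, Fintype.sum_sum_type, Fintype.sum_sum_type,
      Fintype.sum_sum_type, Fintype.sum_sum_type]
    rcases x with (x | x) | x <;> rcases y with (y | y) | y <;>
      simp [tm, pl, lm, extend, Matrix.one_apply] <;> ring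
  rw [h1, mul_assoc, tm_mul_neg, mul_one]

theorem F_blocks (β γ : ℂ) (A B : Matrix m m ℂ) (U W : Matrix m Unit ℂ) (V Z : Matrix Unit m ℂ)
    (α δ : Matrix Unit Unit ℂ) :
    F β γ (Matrix.fromBlocks A U V α) (Matrix.fromBlocks B W Z δ) =
      (A * B).trace + β * (Z * U).trace + γ * (V * W).trace + α.trace + δ.trace +
        β * γ * (α.trace - 1) * (δ.trace - 1) := by
  unfold F
  rw [lm_eq, lm_eq]
  simp only [Matrix.trace, Matrix.diag, Matrix.mul_apply, Fintype.sum_sum_type, sw_apply,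
    Finset.univ_unique, Finset.sum_singleton]
  simp [swapLast, lm, Finset.sum_add_distrib, Finset.mul_sum]
  have e1 : (∑ x, β * U x () * Z () x) = ∑ x, β * (Z () x * U x ()) :=
    Finset.sum_congr rfl fun _ _ => by ring
  have e2 : (∑ x, V () x * (γ * W x ())) = ∑ x, γ * (V () x * W x ()) :=
    Finset.sum_congr rfl fun _ _ => by ring
  change _ + _ + ((∑ x, V () x * (γ * W x ())) + α () () + _) + δ () () =
    _ + (∑ i, β * (Z () i * U i ())) + (∑ i, γ * (V () i * W i ())) + α () () + δ () () +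
      β * γ * (α () () - 1) * (δ () () - 1)
  rw [e1, e2]
  ring

/-- A unipotent matrix. -/
def up (U : Matrix m Unit ℂ) : Matrix (m ⊕ Unit) (m ⊕ Unit) ℂ := Matrix.fromBlocks 1 U 0 1

/-- A unipotent matrix. -/
def lo (V : Matrix Unit m ℂ) : Matrix (m ⊕ Unit) (m ⊕ Unit) ℂ := Matrix.fromBlocks 1 0 V 1

theorem det_up (U : Matrix m Unit ℂ) : (up U).det = 1 := by
  unfold up
  rw [Matrix.det_fromBlocks_zero₂₁, Matrix.det_one, Matrix.det_one, one_mul]

theorem det_lo (V : Matrix Unit m ℂ) : (lo V).det = 1 := by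
  unfold lo
  rw [Matrix.det_fromBlocks_zero₁₂, Matrix.det_one, Matrix.det_one, one_mul]

theorem adj_up (U : Matrix m Unit ℂ) : (up U).adjugate = up (-U) := by
  refine adjugate_of_det (det_up U) ?_
  unfold up
  rw [Matrix.fromBlocks_multiply, ← Matrix.fromBlocks_one]
  congr 1 <;> simp

theorem adj_lo (V : Matrix Unit m ℂ) : (lo V).adjugate = lo (-V) := by
  refine adjugate_of_det (det_lo V) ?_
  unfold lo
  rw [Matrix.fromBlocks_multiply, ← Matrix.fromBlocks_one]
  congr 1 <;> simp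

theorem dg_up {Q R : Matrix m m ℂ} (hQR : Q * R = 1) {a : ℂ} (ha : a ≠ 0) (U : Matrix m Unit ℂ) :
    dg Q a * up U * dg R a⁻¹ = up (a⁻¹ • (Q * U)) := by
  unfold dg up
  rw [Matrix.fromBlocks_multiply, Matrix.fromBlocks_multiply]
  congr 1 <;> simp [hQR, ha]

theorem dg_lo {Q R : Matrix m m ℂ} (hQR : Q * R = 1) {a : ℂ} (ha : a ≠ 0) (V : Matrix Unit m ℂ) :
    dg Q a * lo V * dg R a⁻¹ = lo (a • (V * R)) := by
  unfold dg lo
  rw [Matrix.fromBlocks_multiply, Matrix.fromBlocks_multiply]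
  congr 1 <;> simp [hQR, ha]

theorem F_up_lo (β γ : ℂ) (U : Matrix m Unit ℂ) (V : Matrix Unit m ℂ) :
    F β γ (up U) (lo V) = (Fintype.card m + 2 : ℂ) + β * (V * U).trace := by
  unfold up lo
  rw [F_blocks]
  simp
  ring

theorem F_lo_up (β γ : ℂ) (U : Matrix m Unit ℂ) (V : Matrix Unit m ℂ) :
    F β γ (lo V) (up U) = (Fintype.card m + 2 : ℂ) + γ * (V * U).trace := by
  unfold up lo
  rw [F_blocks]
  simp
  ring

theorem F_up_up (β γ : ℂ) (U U' : Matrix m Unit ℂ) :
    F β γ (up U) (up U') = (Fintype.card m + 2 : ℂ) := by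
  unfold up
  rw [F_blocks]
  simp
  ring

end Pool.Agent.K4H40.TH
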