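import Mathlib
import Pool.Agent.K4H40.TH.Poly

/-!
# Automorphisms which fix the adjoint traces of a tilted hybrid
-/

set_option autoImplicit false
set_option linter.unusedSectionVars false


namespace Pool.Agent.K4H40.TH

open Matrix Pool.Agent.K4H34.HH

open scoped ComplexOrder

variable {m : Type*} [Fintype m] [DecidableEq m]
variable {Γ₁ Γ₂ : Subgroup (GL' (m ⊕ Unit))} {Γ₃ : Subgroup (GL' m)}

theorem F_map (σ : ℂ ≃+* ℂ) (β γ : ℂ) (X Y : Matrix (m ⊕ Unit) (m ⊕ Unit) ℂ) :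
    σ (F β γ X Y) = F (σ β) (σ γ) (X.map σ) (Y.map σ) := by
  have h4 : ∀ A B : Matrix ((m ⊕ Unit) ⊕ Unit) ((m ⊕ Unit) ⊕ Unit) ℂ,
      (A * B).map σ = A.map σ * B.map σ := by
    intro A B
    exact Matrix.map_mul (f := (σ : ℂ →+* ℂ))
  unfold F
  rw [← tr_map, h4, h4, h4, map_sw, h4, h4, map_extend, map_extend, tm_map, tm_map, tm_map, tm_map,
    map_neg, map_neg]

theorem identity_ext (hd1 : IsZariskiDense Γ₁) (hd2 : IsZariskiDense Γ₂) (β γ β' γ' : ℂ)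
    {Θ₁ Θ₁' Θ₂ Θ₂' : Matrix (m ⊕ Unit) (m ⊕ Unit) ℂ → Matrix (m ⊕ Unit) (m ⊕ Unit) ℂ}
    (p1 : PolyMat Θ₁) (p1' : PolyMat Θ₁') (p2 : PolyMat Θ₂) (p2' : PolyMat Θ₂')
    (h : ∀ X ∈ Γ₁, ∀ Y ∈ Γ₂, F β' γ' (Θ₁ X.1) (Θ₂ Y.1) * F β' γ' (Θ₁' X.1) (Θ₂' Y.1) =
      F β γ X.1 Y.1 * F β γ X.1.adjugate Y.1.adjugate) :
    ∀ X Y : Matrix (m ⊕ Unit) (m ⊕ Unit) ℂ, X.det = 1 → Y.det = 1 →
      F β' γ' (Θ₁ X) (Θ₂ Y) * F β' γ' (Θ₁' X) (Θ₂' Y) =
        F β γ X Y * F β γ X.adjugate Y.adjugate := by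
  have h1 : ∀ Y ∈ Γ₂, ∀ X : Matrix (m ⊕ Unit) (m ⊕ Unit) ℂ, X.det = 1 →
      F β' γ' (Θ₁ X) (Θ₂ Y.1) * F β' γ' (Θ₁' X) (Θ₂' Y.1) =
        F β γ X Y.1 * F β γ X.adjugate Y.1.adjugate := by
    intro Y hY
    exact PolyFun.ext_dense hd1 ((polyF_left β' γ' p1 _).mul (polyF_left β' γ' p1' _))
      ((polyF_left β γ PolyMat.id _).mul (polyF_left β γ PolyMat.adj _)) fun X hX => h X hX Y hY
  intro X Y hX hY
  exact PolyFun.ext_dense hd2 ((polyF_right β' γ' p2 _).mul (polyF_right β' γ' p2' _))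
      ((polyF_right β γ PolyMat.id _).mul (polyF_right β γ PolyMat.adj _))
      (fun Y hY => h1 Y hY X hX) Y hY

/-- The adjoint traces of products. -/
theorem adj_traces {σ : ℂ ≃+* ℂ} {b : ℂ}
    (hadj : ∀ g ∈ tiltedHybrid b Γ₁ Γ₂,
      σ (g.1.trace * (g⁻¹).1.trace) = g.1.trace * (g⁻¹).1.trace)
    {X Y : GL' (m ⊕ Unit)} (hX : X ∈ Γ₁) (hY : Y ∈ Γ₂) :
    F (σ b) (σ (starRingEnd ℂ b)) (X.1.map σ) (Y.1.map σ) *
      F (σ b) (σ (starRingEnd ℂ b)) ((X⁻¹).1.map σ) ((Y⁻¹).1.map σ) =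
      F b (starRingEnd ℂ b) X.1 Y.1 * F b (starRingEnd ℂ b) (X⁻¹).1 (Y⁻¹).1 := by
  have h1 := hadj _ (mul_mem (tleft_mem hX) (tright_mem hY))
  have h2 : (tiltGL b X * swapGL (tiltGL (starRingEnd ℂ b) Y)).1.trace =
      F b (starRingEnd ℂ b) X.1 Y.1 := rfl
  have h3 : ((tiltGL b X * swapGL (tiltGL (starRingEnd ℂ b) Y))⁻¹).1.trace =
      F b (starRingEnd ℂ b) (X⁻¹).1 (Y⁻¹).1 := by
    rw [_root_.mul_inv_rev, Units.val_mul, Matrix.trace_mul_comm, ← map_inv, ← map_inv, ← map_inv]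
    rfl
  rw [h2, h3, map_mul, F_map, F_map] at h1
  exact h1

/-- If an automorphism fixes the traces of one of the two groups. -/
theorem fixed_form (hm : 2 ≤ Fintype.card m) (h3 : Spans (coeR Γ₃))
    {Γ : Subgroup (GL' (m ⊕ Unit))} (hΓ : Spans (coeR Γ)) (hle : Γ₃.map extendGL ≤ Γ)
    {σ : ℂ ≃+* ℂ} (hσ : TracesFixed σ Γ) : ∃ (Q R : Matrix m m ℂ) (a : ℂ), Q * R = 1 ∧ R * Q = 1 ∧
      a ≠ 0 ∧ (∀ γ ∈ Γ, tw σ (co _) γ * dg Q a = dg Q a * co _ γ) ∧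
      ∀ γ : Γ₃, tw σ (coeR Γ₃) γ * Q = Q * coeR Γ₃ γ := by
  have : Nonempty m := by
    rw [← Fintype.card_pos_iff]
    omega
  obtain ⟨P, hPu, hP⟩ := exists_intertwiner hΓ (spans_tw σ hΓ) (fun γ => by
    rw [tw_apply, tr_map]
    exact (hσ γ.1 γ.2).symm)
  obtain ⟨Q, a, rfl, hQ⟩ := block_form hm h3 (spans_tw σ h3) (M := P) (by
    intro γ
    have h4 := hP ⟨extendGL γ.1, hle ⟨γ.1, γ.2, rfl⟩⟩
    have h5 : tw σ (coeR Γ) ⟨extendGL γ.1, hle ⟨γ.1, γ.2, rfl⟩⟩ =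
        ext1 (tw σ (coeR Γ₃) γ) := map_extend σ _
    rw [h5] at h4
    exact h4)
  obtain ⟨⟨U, rfl⟩, ha⟩ := dg_isUnit hPu
  exact ⟨U.1, (U⁻¹).1, a, U.mul_inv, U.inv_mul, ha, fun γ hγ => hP ⟨γ, hγ⟩, hQ⟩

theorem conj_of_inter {N : Type*} [Fintype N] [DecidableEq N] {A B D D' : Matrix N N ℂ}
    (hD : D * D' = 1) (h : A * D = D * B) : A = D * B * D' := by
  rw [← h, mul_assoc, hD, mul_one]

theorem dg_inv {Q R : Matrix m m ℂ} (hQR : Q * R = 1) {a : ℂ} (ha : a ≠ 0) :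
    dg Q a * dg R a⁻¹ = 1 := by
  rw [dg_mul, hQR, mul_inv_cancel₀ ha]
  unfold dg
  rw [one_smul, Matrix.fromBlocks_one]

theorem exists_UV [Nonempty m] : ∃ (U : Matrix m Unit ℂ) (V : Matrix Unit m ℂ),
    (V * U).trace = 1 := by
  obtain ⟨i⟩ := (inferInstance : Nonempty m)
  refine ⟨Matrix.single i () 1, Matrix.single () i 1, ?_⟩
  rw [Matrix.single_mul_single_same]
  simp [Matrix.trace]

/-- Squares of two linear functions with the same constant term. -/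
theorem sq_lin {n x y : ℂ} (hn : n ≠ 0) (h1 : (n + x) * (n + x) = (n + y) * (n + y))
    (h2 : (n - x) * (n - x) = (n - y) * (n - y)) : x = y := by
  have h3 : 4 * n * (x - y) = 0 := by linear_combination h1 - h2
  have h4 : (4 * n : ℂ) ≠ 0 := by simpa using hn
  exact sub_eq_zero.1 ((mul_eq_zero.1 h3).resolve_left h4)

theorem adj_eq_inv {X : GL' (m ⊕ Unit)} (hX : X.1.det = 1) : X.1.adjugate = (X⁻¹).1 :=
  adjugate_of_det hX X.mul_inv

theorem tr_t1 {U : Matrix m Unit ℂ} {V : Matrix Unit m ℂ} (hUV : (V * U).trace = 1) (q : ℂ) :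
    (V * (q • U)).trace = q := by
  rw [Matrix.mul_smul, Matrix.trace_smul, hUV, smul_eq_mul, mul_one]

theorem tr_t2 {U : Matrix m Unit ℂ} {V : Matrix Unit m ℂ} (hUV : (V * U).trace = 1) (q : ℂ) :
    (-V * -(q • U)).trace = q := by
  rw [Matrix.neg_mul, Matrix.mul_neg, neg_neg, tr_t1 hUV]

theorem tr_t3 {U : Matrix m Unit ℂ} {V : Matrix Unit m ℂ} (hUV : (V * U).trace = 1)
    {R Q : Matrix m m ℂ} {c : ℂ} (hRQ : R * Q = c • (1 : Matrix m m ℂ)) (s t q : ℂ) :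
    ((s • (V * R)) * (t • (Q * (q • U)))).trace = q * (c * s * t) := by
  have : V * R * (Q * (q • U)) = c • (V * (q • U)) := by
    rw [Matrix.mul_assoc V, ← Matrix.mul_assoc R, hRQ, Matrix.smul_mul, Matrix.one_mul,
      Matrix.mul_smul V]
  rw [Matrix.smul_mul, Matrix.mul_smul, this, Matrix.trace_smul, Matrix.trace_smul,
    Matrix.trace_smul, tr_t1 hUV, smul_eq_mul, smul_eq_mul, smul_eq_mul]
  ring

theorem tr_t4 {U : Matrix m Unit ℂ} {V : Matrix Unit m ℂ} (hUV : (V * U).trace = 1)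
    {R Q : Matrix m m ℂ} {c : ℂ} (hRQ : R * Q = c • (1 : Matrix m m ℂ)) (s t q : ℂ) :
    ((s • (-V * R)) * (t • (Q * -(q • U)))).trace = q * (c * s * t) := by
  rw [← tr_t3 hUV hRQ, Matrix.neg_mul, Matrix.mul_neg, smul_neg, smul_neg, Matrix.neg_mul,
    Matrix.mul_neg, neg_neg]

/-- **An automorphism which fixes the traces of the two groups and the adjoint traces of the hybrid
fixes the traces of the hybrid.** -/
theorem fixed_tilted (hm : 2 ≤ Fintype.card m) (h3 : Spans (coeR Γ₃)) (h1 : Spans (coeR Γ₁))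
    (h2 : Spans (coeR Γ₂)) (hle1 : Γ₃.map extendGL ≤ Γ₁) (hle2 : Γ₃.map extendGL ≤ Γ₂)
    (hd1 : IsZariskiDense Γ₁) (hd2 : IsZariskiDense Γ₂) (hdet1 : ∀ X ∈ Γ₁, X.1.det = 1)
    (hdet2 : ∀ X ∈ Γ₂, X.1.det = 1) {σ : ℂ ≃+* ℂ} {b : ℂ} (hσ1 : TracesFixed σ Γ₁)
    (hσ2 : TracesFixed σ Γ₂)
    (hadj : ∀ X ∈ Γ₁, ∀ Y ∈ Γ₂,
      F (σ b) (σ (starRingEnd ℂ b)) (X.1.map σ) (Y.1.map σ) *
        F (σ b) (σ (starRingEnd ℂ b)) ((X⁻¹).1.map σ) ((Y⁻¹).1.map σ) =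
        F b (starRingEnd ℂ b) X.1 Y.1 * F b (starRingEnd ℂ b) (X⁻¹).1 (Y⁻¹).1) :
    TracesFixed σ (tiltedHybrid b Γ₁ Γ₂) := by
  have hmne : Nonempty m := by
    rw [← Fintype.card_pos_iff]
    omega
  obtain ⟨Q₁, R₁, a₁, hQ1, hR1, ha1, e1, q1⟩ := fixed_form hm h3 h1 hle1 hσ1
  obtain ⟨Q₂, R₂, a₂, hQ2, hR2, ha2, e2, q2⟩ := fixed_form hm h3 h2 hle2 hσ2
  obtain ⟨c, hc0, hc⟩ := proportional hm h3 q1 q2
    (IsUnit.of_mul_eq_one _ hQ1) (IsUnit.of_mul_eq_one _ hQ2)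
  have k1 : ∀ X ∈ Γ₁, X.1.map σ = dg Q₁ a₁ * X.1 * dg R₁ a₁⁻¹ := fun X hX =>
    conj_of_inter (dg_inv hQ1 ha1) (e1 X hX)
  have k2 : ∀ X ∈ Γ₂, X.1.map σ = dg Q₂ a₂ * X.1 * dg R₂ a₂⁻¹ := fun X hX =>
    conj_of_inter (dg_inv hQ2 ha2) (e2 X hX)
  have hid := identity_ext hd1 hd2 b (starRingEnd ℂ b) (σ b) (σ (starRingEnd ℂ b))
    (((PolyMat.const (dg Q₁ a₁)).mul PolyMat.id).mul (PolyMat.const (dg R₁ a₁⁻¹)))
    (((PolyMat.const (dg Q₁ a₁)).mul PolyMat.adj).mul (PolyMat.const (dg R₁ a₁⁻¹)))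
    (((PolyMat.const (dg Q₂ a₂)).mul PolyMat.id).mul (PolyMat.const (dg R₂ a₂⁻¹)))
    (((PolyMat.const (dg Q₂ a₂)).mul PolyMat.adj).mul (PolyMat.const (dg R₂ a₂⁻¹))) (by
      intro X hX Y hY
      have h4 := hadj X hX Y hY
      rw [k1 X hX, k2 Y hY, k1 _ (Γ₁.inv_mem hX), k2 _ (Γ₂.inv_mem hY)] at h4
      rw [adj_eq_inv (hdet1 X hX), adj_eq_inv (hdet2 Y hY)]
      exact h4)
  have hN : (Fintype.card m + 2 : ℂ) ≠ 0 := by
    have : ((Fintype.card m + 2 : ℕ) : ℂ) ≠ 0 := Nat.cast_ne_zero.2 (by omega)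
    push_cast at this
    exact this
  obtain ⟨U, V, hUV⟩ := exists_UV (m := m)
  have hRQ : R₂ * Q₁ = c • (1 : Matrix m m ℂ) := by rw [hc, Matrix.mul_smul, hR2]
  have hRQ' : R₁ * Q₂ = c⁻¹ • (1 : Matrix m m ℂ) := by
    have h4 : Q₂ = c⁻¹ • Q₁ := by rw [hc, smul_smul, inv_mul_cancel₀ hc0, one_smul]
    rw [h4, Matrix.mul_smul, hR1]
  -- the first parameter
  have hβ : σ b * (c * a₂) = b * a₁ := by
    have h4 : ∀ q : ℂ, ((Fintype.card m + 2 : ℂ) + q * (σ b * (c * a₂ * a₁⁻¹))) *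
        ((Fintype.card m + 2 : ℂ) + q * (σ b * (c * a₂ * a₁⁻¹))) =
        ((Fintype.card m + 2 : ℂ) + q * b) * ((Fintype.card m + 2 : ℂ) + q * b) := by
      intro q
      have h5 := hid (up (q • U)) (lo V) (det_up _) (det_lo _)
      simp only [adj_up, adj_lo, dg_up hQ1 ha1, dg_lo hQ2 ha2, F_up_lo] at h5
      rw [tr_t1 hUV, tr_t2 hUV, tr_t3 hUV hRQ, tr_t4 hUV hRQ] at h5
      linear_combination h5
    have h5 := h4 1
    have h6 := h4 (-1)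
    have h7 := sq_lin hN (x := σ b * (c * a₂ * a₁⁻¹)) (y := b) (by linear_combination h5)
      (by linear_combination h6)
    field_simp at h7
    linear_combination h7
  have hγ : σ (starRingEnd ℂ b) * a₁ = starRingEnd ℂ b * (c * a₂) := by
    have h4 : ∀ q : ℂ, ((Fintype.card m + 2 : ℂ) +
          q * (σ (starRingEnd ℂ b) * (c⁻¹ * a₁ * a₂⁻¹))) *
        ((Fintype.card m + 2 : ℂ) + q * (σ (starRingEnd ℂ b) * (c⁻¹ * a₁ * a₂⁻¹))) =
        ((Fintype.card m + 2 : ℂ) + q * starRingEnd ℂ b) *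
          ((Fintype.card m + 2 : ℂ) + q * starRingEnd ℂ b) := by
      intro q
      have h5 := hid (lo V) (up (q • U)) (det_lo _) (det_up _)
      simp only [adj_up, adj_lo, dg_up hQ2 ha2, dg_lo hQ1 ha1, F_lo_up] at h5
      rw [tr_t1 hUV, tr_t2 hUV, tr_t3 hUV hRQ', tr_t4 hUV hRQ'] at h5
      linear_combination h5
    have h5 := h4 1
    have h6 := h4 (-1)
    have h7 := sq_lin hN (x := σ (starRingEnd ℂ b) * (c⁻¹ * a₁ * a₂⁻¹)) (y := starRingEnd ℂ b)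
      (by linear_combination h5) (by linear_combination h6)
    field_simp at h7
    linear_combination h7
  -- the intertwining matrix
  set D : Matrix ((m ⊕ Unit) ⊕ Unit) ((m ⊕ Unit) ⊕ Unit) ℂ := pl Q₁ a₁ 0 0 (c * a₂) with hD
  have hle : tiltedHybrid b Γ₁ Γ₂ ≤ eqSub (tw σ (co _)) (co _) D := by
    unfold tiltedHybrid
    refine sup_le ?_ ?_
    · rintro _ ⟨γ, hγ, rfl⟩
      rw [mem_eqSub, tw_tilt]
      change _ = D * (tiltGL b γ).1
      rw [tiltGL_val]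
      have s1 : ∀ s t : ℂ, s * (c * a₂) = t * a₁ → tm s * D = D * tm t := by
        intro s t hst
        rw [hD]
        unfold tm
        rw [pl_mul, pl_mul]
        simp only [one_mul, mul_one, zero_mul, mul_zero, add_zero, zero_add]
        congr 1
        linear_combination -hst
      have s2 : extend (tw σ (co _) γ) * D = D * extend γ.1 := by
        rw [hD, ← dn_dg]
        exact extend_mul_dn (e1 γ hγ) _
      calc tm (σ b) * extend (tw σ (co _) γ) * tm (-(σ b)) * D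
          = tm (σ b) * (extend (tw σ (co _) γ) * (tm (-(σ b)) * D)) := by simp only [mul_assoc]
        _ = tm (σ b) * (extend (tw σ (co _) γ) * D * tm (-b)) := by
            rw [s1 (-(σ b)) (-b) (by linear_combination -hβ), mul_assoc]
        _ = (tm (σ b) * D) * extend γ.1 * tm (-b) := by rw [s2]; simp only [mul_assoc]
        _ = D * (tm b * extend γ.1 * tm (-b)) := by rw [s1 _ _ hβ]; simp only [mul_assoc]
    · rintro _ ⟨_, ⟨γ, hγ', rfl⟩, rfl⟩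
      rw [mem_eqSub, tw_swap]
      change _ = D * sw (tiltGL (starRingEnd ℂ b) γ).1
      have hDs : D = sw (pl Q₁ (c * a₂) 0 0 a₁) := by rw [sw_pl]
      rw [hDs, ← map_mul, ← map_mul]
      congr 1
      rw [tw_tilt, tiltGL_val]
      set E : Matrix ((m ⊕ Unit) ⊕ Unit) ((m ⊕ Unit) ⊕ Unit) ℂ := pl Q₁ (c * a₂) 0 0 a₁ with hE
      have s1 : ∀ s t : ℂ, s * a₁ = t * (c * a₂) → tm s * E = E * tm t := by
        intro s t hst
        rw [hE]
        unfold tm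
        rw [pl_mul, pl_mul]
        simp only [one_mul, mul_one, zero_mul, mul_zero, add_zero, zero_add]
        congr 1
        linear_combination -hst
      have s2 : extend (tw σ (co _) γ) * E = E * extend γ.1 := by
        rw [hE, ← dn_dg]
        refine extend_mul_dn ?_ _
        have e3 : dg Q₁ (c * a₂) = c • dg Q₂ a₂ := by
          unfold dg
          rw [Matrix.fromBlocks_smul, hc]
          simp [smul_smul]
        rw [e3, Matrix.mul_smul, Matrix.smul_mul]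
        congr 1
        exact e2 γ hγ'
      calc tm (σ (starRingEnd ℂ b)) * extend (tw σ (co _) γ) * tm (-(σ (starRingEnd ℂ b))) * E
          = tm (σ (starRingEnd ℂ b)) *
            (extend (tw σ (co _) γ) * (tm (-(σ (starRingEnd ℂ b))) * E)) := by
            simp only [mul_assoc]
        _ = tm (σ (starRingEnd ℂ b)) *
            (extend (tw σ (co _) γ) * E * tm (-(starRingEnd ℂ b))) := by
            rw [s1 (-(σ (starRingEnd ℂ b))) (-(starRingEnd ℂ b)) (by linear_combination -hγ),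
              mul_assoc]
        _ = (tm (σ (starRingEnd ℂ b)) * E) * extend γ.1 * tm (-(starRingEnd ℂ b)) := by
            rw [s2]
            simp only [mul_assoc]
        _ = E * (tm (starRingEnd ℂ b) * extend γ.1 * tm (-(starRingEnd ℂ b))) := by
            rw [s1 _ _ hγ]
            simp only [mul_assoc]
  have hDu : D * pl R₁ a₁⁻¹ 0 0 (c * a₂)⁻¹ = 1 := by
    rw [hD, pl_mul, hQ1, ← pl_one]
    congr 1 <;> field_simp <;> simp
  intro g hg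
  have h4 : tw σ (co _) g = D * g.1 * pl R₁ a₁⁻¹ 0 0 (c * a₂)⁻¹ := conj_of_inter hDu (hle hg)
  have h5 : (tw σ (co _) g).trace = σ g.1.trace := by
    rw [← tr_map]
    rfl
  rw [← h5, h4, Matrix.trace_mul_comm, ← mul_assoc, mul_eq_one_comm.1 hDu, one_mul]

/-- If the traces of the products of elements of the two groups lie in their common trace field then
this is the trace field of the hybrid. -/
theorem field_of_products (hm : 2 ≤ Fintype.card m) (h3 : Spans (coeR Γ₃)) (h1 : Spans (coeR Γ₁))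
    (h2 : Spans (coeR Γ₂)) (hle1 : Γ₃.map extendGL ≤ Γ₁) (hle2 : Γ₃.map extendGL ≤ Γ₂)
    (hd1 : IsZariskiDense Γ₁) (hd2 : IsZariskiDense Γ₂) (hdet1 : ∀ X ∈ Γ₁, X.1.det = 1)
    (hdet2 : ∀ X ∈ Γ₂, X.1.det = 1) {b : ℂ} (hf : traceField Γ₁ = traceField Γ₂)
    (hp : ∀ X ∈ Γ₁, ∀ Y ∈ Γ₂,
      (tiltGL b X * swapGL (tiltGL (starRingEnd ℂ b) Y)).1.trace ∈ traceField Γ₁) :
    traceField (tiltedHybrid b Γ₁ Γ₂) = traceField Γ₁ := by
  refine (field_eq_iff _ _).2 fun σ => ⟨fun hσ => ?_, ?_⟩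
  · have hσ' := (fixed_iff σ Γ₁).1 hσ
    have hσ2 : TracesFixed σ Γ₂ := by
      rw [fixed_iff, ← hf]
      exact hσ'
    have hF : ∀ X ∈ Γ₁, ∀ Y ∈ Γ₂, F (σ b) (σ (starRingEnd ℂ b)) (X.1.map σ) (Y.1.map σ) =
        F b (starRingEnd ℂ b) X.1 Y.1 := by
      intro X hX Y hY
      rw [← F_map]
      exact hσ' _ (hp X hX Y hY)
    refine fixed_tilted hm h3 h1 h2 hle1 hle2 hd1 hd2 hdet1 hdet2 hσ hσ2 fun X hX Y hY => ?_
    rw [hF X hX Y hY, hF _ (Γ₁.inv_mem hX) _ (Γ₂.inv_mem hY)]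
  · intro hσ γ hγ
    have h4 := hσ _ (tleft_mem hγ)
    rw [trace_tilt, map_add, map_one] at h4
    exact add_right_cancel h4

end Pool.Agent.K4H40.TH
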