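import Mathlib
import Pool.Agent.K4H40.TH.Fixed
import Pool.Agent.W715.VC.TrPow

/-!
# The adjoint condition for tilted hybrids
-/

set_option autoImplicit false
set_option linter.unusedSectionVars false


namespace Pool.Agent.K4H40.TH

open Matrix Pool.Agent.K4H34.HH

open scoped ComplexOrder

section eig

/-- If the power sums of a multiset of complex numbers are bounded then all of them are in the
closed unit disc. -/
theorem norm_le_one_of_powers {S : Multiset ℂ} {K : ℝ}
    (hS : ∀ k : ℕ, k ≠ 0 → ‖(S.map fun a => a ^ k).sum‖ ≤ K) {μ : ℂ} (hμ : μ ∈ S) : ‖μ‖ ≤ 1 := by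
  classical
  by_contra hcon
  push Not at hcon
  -- the polynomial which vanishes at the other numbers
  let P : Polynomial ℂ := ∏ a ∈ S.toFinset.erase μ, (Polynomial.X - Polynomial.C a)
  have hP : P.eval μ ≠ 0 := by
    rw [Polynomial.eval_prod, Finset.prod_ne_zero_iff]
    intro a ha
    rw [Polynomial.eval_sub, Polynomial.eval_X, Polynomial.eval_C, sub_ne_zero]
    exact (Finset.ne_of_mem_erase ha).symm
  have hP0 : ∀ a ∈ S.toFinset, a ≠ μ → P.eval a = 0 := by
    intro a ha hne
    rw [Polynomial.eval_prod]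
    refine Finset.prod_eq_zero (Finset.mem_erase.2 ⟨hne, ha⟩) ?_
    rw [Polynomial.eval_sub, Polynomial.eval_X, Polynomial.eval_C, sub_self]
  have h1 : ∀ k : ℕ, ∑ j ∈ P.support, P.coeff j * (S.map fun a => a ^ (k + j)).sum =
      (S.count μ : ℂ) * (μ ^ k * P.eval μ) := by
    intro k
    have h2 : ∀ j, (S.map fun a => a ^ (k + j)).sum =
        ∑ a ∈ S.toFinset, (S.count a : ℂ) * a ^ (k + j) := by
      intro j
      rw [Finset.sum_multiset_map_count]
      exact Finset.sum_congr rfl fun a _ => nsmul_eq_mul _ _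
    calc ∑ j ∈ P.support, P.coeff j * (S.map fun a => a ^ (k + j)).sum
        = ∑ a ∈ S.toFinset, (S.count a : ℂ) * (a ^ k * P.eval a) := by
          simp_rw [h2, Finset.mul_sum]
          rw [Finset.sum_comm]
          refine Finset.sum_congr rfl fun a _ => ?_
          rw [Polynomial.eval_eq_sum, Polynomial.sum, Finset.mul_sum, Finset.mul_sum]
          refine Finset.sum_congr rfl fun j _ => ?_
          rw [pow_add]
          ring
      _ = (S.count μ : ℂ) * (μ ^ k * P.eval μ) := by
          refine Finset.sum_eq_single μ ?_ ?_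
          · intro a ha hne
            rw [hP0 a ha hne, mul_zero, mul_zero]
          · intro h
            exact absurd (Multiset.mem_toFinset.2 hμ) h
  have hcount : (0 : ℝ) < S.count μ := Nat.cast_pos.2 (Multiset.count_pos.2 hμ)
  have hPpos : 0 < ‖P.eval μ‖ := norm_pos_iff.2 hP
  set B : ℝ := ∑ j ∈ P.support, ‖P.coeff j‖ * K with hB
  have h3 : ∀ k : ℕ, k ≠ 0 → S.count μ * (‖μ‖ ^ k * ‖P.eval μ‖) ≤ B := by
    intro k hk
    have h4 : ‖(S.count μ : ℂ) * (μ ^ k * P.eval μ)‖ ≤ B := by
      rw [← h1 k, hB]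
      refine (norm_sum_le _ _).trans (Finset.sum_le_sum fun j _ => ?_)
      rw [norm_mul]
      exact mul_le_mul_of_nonneg_left (hS _ (by omega)) (norm_nonneg _)
    rw [norm_mul, norm_mul, norm_pow, Complex.norm_natCast] at h4
    exact h4
  obtain ⟨k, hk⟩ := pow_unbounded_of_one_lt (B / (S.count μ * ‖P.eval μ‖)) hcon
  have h4 := h3 (k + 1) (by omega)
  have h5 : ‖μ‖ ^ k ≤ ‖μ‖ ^ (k + 1) := pow_le_pow_right₀ hcon.le (by omega)
  rw [div_lt_iff₀ (by positivity)] at hk
  have h6 : ‖μ‖ ^ k * (S.count μ * ‖P.eval μ‖) ≤ ‖μ‖ ^ (k + 1) * (S.count μ * ‖P.eval μ‖) :=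
    mul_le_mul_of_nonneg_right h5 (by positivity)
  nlinarith

theorem sum_product_map (s t : Multiset ℂ) (f g : ℂ → ℂ) :
    ((s ×ˢ t).map fun x => f x.1 * g x.2).sum = (s.map f).sum * (t.map g).sum := by
  induction s using Multiset.induction_on with
  | empty => simp
  | cons a s ih =>
    rw [Multiset.cons_product, Multiset.map_add, Multiset.sum_add, ih, Multiset.map_cons,
      Multiset.sum_cons, add_mul, Multiset.map_map]
    congr 1
    rw [← Multiset.sum_map_mul_left]
    rfl

theorem norm_prod_le {T : Multiset ℂ} {r : ℝ} (hT : ∀ b ∈ T, ‖b‖ ≤ r) :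
    ‖T.prod‖ ≤ r ^ T.card := by
  induction T using Multiset.induction_on with
  | empty => simp
  | cons b T ih =>
    have hb := hT b (Multiset.mem_cons_self b T)
    have hr : 0 ≤ r := (norm_nonneg b).trans hb
    rw [Multiset.prod_cons, norm_mul, Multiset.card_cons, pow_succ, mul_comm]
    exact mul_le_mul (ih fun a ha => hT a (Multiset.mem_cons_of_mem ha)) hb (norm_nonneg _)
      (pow_nonneg hr _)

theorem norm_sum_le_card {T : Multiset ℂ} (hT : ∀ b ∈ T, ‖b‖ ≤ 1) : ‖T.sum‖ ≤ T.card := by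
  induction T using Multiset.induction_on with
  | empty => simp
  | cons b T ih =>
    have hb := hT b (Multiset.mem_cons_self b T)
    rw [Multiset.sum_cons, Multiset.card_cons, Nat.cast_add, Nat.cast_one, add_comm (T.card : ℝ)]
    exact (norm_add_le _ _).trans (add_le_add hb
      (ih fun a ha => hT a (Multiset.mem_cons_of_mem ha)))

variable {ι : Type} [Fintype ι] [DecidableEq ι]

/-- If the products of the traces of the powers of two matrices of determinant one are bounded then
the trace is bounded by the dimension. -/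
theorem trace_le_card {A B : Matrix ι ι ℂ} (hB : B.det = 1) {K : ℝ}
    (h : ∀ k : ℕ, k ≠ 0 → ‖(A ^ k).trace * (B ^ k).trace‖ ≤ K) : ‖A.trace‖ ≤ Fintype.card ι := by
  have hprod : ∀ k : ℕ, k ≠ 0 →
      ((A.charpoly.roots ×ˢ B.charpoly.roots).map fun x => (x.1 * x.2) ^ k).sum =
        (A ^ k).trace * (B ^ k).trace := by
    intro k hk
    rw [Pool.Agent.W715.VC.trace_pow A hk, Pool.Agent.W715.VC.trace_pow B hk, ← sum_product_map]
    refine congrArg Multiset.sum (Multiset.map_congr rfl fun x _ => ?_)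
    rw [mul_pow]
  have h1 : ∀ a ∈ A.charpoly.roots, ∀ b ∈ B.charpoly.roots, ‖a * b‖ ≤ 1 := by
    intro a ha b hb
    refine norm_le_one_of_powers
      (S := (A.charpoly.roots ×ˢ B.charpoly.roots).map fun x => x.1 * x.2) (K := K) ?_ ?_
    · intro k hk
      rw [Multiset.map_map]
      change ‖((A.charpoly.roots ×ˢ B.charpoly.roots).map fun x => (x.1 * x.2) ^ k).sum‖ ≤ K
      rw [hprod k hk]
      exact h k hk
    · exact Multiset.mem_map.2 ⟨(a, b), Multiset.mem_product.2 ⟨ha, hb⟩, rfl⟩
  have h2 : ∀ a ∈ A.charpoly.roots, ‖a‖ ≤ 1 := by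
    intro a ha
    by_contra hcon
    push Not at hcon
    have ha0 : 0 < ‖a‖ := by linarith
    have h3 : ‖B.charpoly.roots.prod‖ ≤ (‖a‖⁻¹) ^ B.charpoly.roots.card := by
      refine norm_prod_le fun b hb => ?_
      have h4 := h1 a ha b hb
      rw [norm_mul] at h4
      rw [← one_div, le_div_iff₀ ha0, mul_comm]
      exact h4
    rw [← Matrix.det_eq_prod_roots_charpoly, hB, norm_one,
      Pool.Agent.W715.VC.card_roots'] at h3
    have h5 : 0 < Fintype.card ι := by
      rw [← Pool.Agent.W715.VC.card_roots' A]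
      exact Multiset.card_pos_iff_exists_mem.2 ⟨a, ha⟩
    have h6 : (‖a‖⁻¹) ^ Fintype.card ι < 1 :=
      pow_lt_one₀ (inv_nonneg.2 ha0.le) (inv_lt_one_of_one_lt₀ hcon) h5.ne'
    linarith
  rw [Matrix.trace_eq_sum_roots_charpoly, ← Pool.Agent.W715.VC.card_roots' A]
  exact norm_sum_le_card h2

end eig

end Pool.Agent.K4H40.TH
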