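import Mathlib
import Pool.Agent.K4H40.TH.Adj

/-!
# Automorphisms which fix the traces of one group and conjugate those of the other one
-/

set_option autoImplicit false
set_option linter.unusedSectionVars false


namespace Pool.Agent.K4H40.TH

open Matrix Pool.Agent.K4H34.HH

open scoped ComplexOrder

section general

variable {N : Type*} [Fintype N] [DecidableEq N]

/-- The transposed inverse. -/
def tinv (N : Type*) [Fintype N] [DecidableEq N] : GL' N →* Matrix N N ℂ where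
  toFun γ := ((γ⁻¹).1)ᵀ
  map_one' := by rw [inv_one, Units.val_one, Matrix.transpose_one]
  map_mul' γ δ := by rw [_root_.mul_inv_rev, Units.val_mul, Matrix.transpose_mul]

theorem tinv_apply (γ : GL' N) : tinv N γ = ((γ⁻¹).1)ᵀ := rfl

theorem sp_tinv {Γ : Subgroup (GL' N)} (h : Spans (coeR Γ)) :
    Spans ((tinv N).comp Γ.subtype) := by
  unfold Spans
  rw [eq_top_iff]
  intro A _
  have h1 : ∀ B ∈ Submodule.span ℂ (Set.range (coeR Γ)),
      Bᵀ ∈ Submodule.span ℂ (Set.range ((tinv N).comp Γ.subtype)) := by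
    intro B hB
    induction hB using Submodule.span_induction with
    | mem B hB =>
      obtain ⟨g, rfl⟩ := hB
      refine Submodule.subset_span ⟨g⁻¹, ?_⟩
      change ((((g⁻¹ : Γ) : GL' N)⁻¹).1)ᵀ = _
      rw [Subgroup.coe_inv, inv_inv]
      rfl
    | zero => simp
    | add B C _ _ hB hC =>
      rw [Matrix.transpose_add]
      exact Submodule.add_mem _ hB hC
    | smul c B _ hB =>
      rw [Matrix.transpose_smul]
      exact Submodule.smul_mem _ _ hB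
  have h2 := h1 Aᵀ (by rw [h]; trivial)
  rwa [Matrix.transpose_transpose] at h2

end general

variable {m : Type*} [Fintype m] [DecidableEq m]
variable {Γ₁ Γ₂ : Subgroup (GL' (m ⊕ Unit))} {Γ₃ : Subgroup (GL' m)}

theorem tinv_extend (γ : GL' m) : tinv _ (extendGL γ) = extend (tinv _ γ) := by
  rw [tinv_apply, ← map_inv]
  change (Matrix.fromBlocks (γ⁻¹).1 0 0 1)ᵀ = Matrix.fromBlocks ((γ⁻¹).1)ᵀ 0 0 1
  rw [Matrix.fromBlocks_transpose]
  simp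

theorem conj_form (hm : 2 ≤ Fintype.card m) (h3 : Spans (coeR Γ₃))
    {Γ : Subgroup (GL' (m ⊕ Unit))} (hΓ : Spans (coeR Γ)) (hle : Γ₃.map extendGL ≤ Γ)
    {J : Matrix (m ⊕ Unit) (m ⊕ Unit) ℂ} (hJ : IsUnit J) (hs : Γ ≤ SU J)
    {σ : ℂ ≃+* ℂ} (hσ : TracesConjugated σ Γ) : ∃ (Q R : Matrix m m ℂ) (a : ℂ), Q * R = 1 ∧
      R * Q = 1 ∧ a ≠ 0 ∧ (∀ γ ∈ Γ, tw σ (co _) γ * dg Q a = dg Q a * tinv _ γ) := by
  have : Nonempty m := by
    rw [← Fintype.card_pos_iff]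
    omega
  obtain ⟨P, hPu, hP⟩ := exists_intertwiner (sp_tinv hΓ) (spans_tw σ hΓ) (fun γ => by
    rw [tw_apply, tr_map]
    change (((γ.1⁻¹).1)ᵀ).trace = σ γ.1.1.trace
    rw [Matrix.trace_transpose, trace_inv hJ (hs γ.2)]
    exact (hσ γ.1 γ.2).symm)
  obtain ⟨Q, a, rfl, _⟩ := block_form hm (sp_tinv h3) (spans_tw σ h3) (M := P) (by
    intro γ
    have h4 := hP ⟨extendGL γ.1, hle ⟨γ.1, γ.2, rfl⟩⟩
    have h5 : tw σ (coeR Γ) ⟨extendGL γ.1, hle ⟨γ.1, γ.2, rfl⟩⟩ =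
        ext1 (tw σ (coeR Γ₃) γ) := map_extend σ _
    have h6 : ((tinv (m ⊕ Unit)).comp Γ.subtype) ⟨extendGL γ.1, hle ⟨γ.1, γ.2, rfl⟩⟩ =
        ext1 (((tinv m).comp Γ₃.subtype) γ) := tinv_extend γ.1
    rw [h5, h6] at h4
    exact h4)
  obtain ⟨⟨U, rfl⟩, ha⟩ := dg_isUnit hPu
  exact ⟨U.1, (U⁻¹).1, a, U.mul_inv, U.inv_mul, ha, fun γ hγ => hP ⟨γ, hγ⟩⟩

theorem up_transpose (U : Matrix m Unit ℂ) : (up U)ᵀ = lo Uᵀ := by
  unfold up lo
  rw [Matrix.fromBlocks_transpose]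
  simp

/-- If an automorphism fixes the adjoint traces of the hybrid, fixes the traces of the first group
and is the conjugation on the traces of the second group, then the two subspaces are orthogonal. -/
theorem mixed_zero (hm : 2 ≤ Fintype.card m) (h3 : Spans (coeR Γ₃)) (h1 : Spans (coeR Γ₁))
    (h2 : Spans (coeR Γ₂)) (hle1 : Γ₃.map extendGL ≤ Γ₁) (hle2 : Γ₃.map extendGL ≤ Γ₂)
    (hd1 : IsZariskiDense Γ₁) (hd2 : IsZariskiDense Γ₂) {J : Matrix (m ⊕ Unit) (m ⊕ Unit) ℂ}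
    (hJ : IsUnit J) (hs1 : Γ₁ ≤ SU J) (hs2 : Γ₂ ≤ SU J)
    {σ : ℂ ≃+* ℂ} {b : ℂ} (hσ1 : TracesFixed σ Γ₁) (hσ2 : TracesConjugated σ Γ₂)
    (hadj : ∀ g ∈ tiltedHybrid b Γ₁ Γ₂,
      σ (g.1.trace * (g⁻¹).1.trace) = g.1.trace * (g⁻¹).1.trace) : b = 0 := by
  have hmne : Nonempty m := by
    rw [← Fintype.card_pos_iff]
    omega
  obtain ⟨Q₁, R₁, a₁, hQ1, hR1, ha1, e1, _⟩ := fixed_form hm h3 h1 hle1 hσ1
  obtain ⟨Q₂, R₂, a₂, hQ2, hR2, ha2, e2⟩ := conj_form hm h3 h2 hle2 hJ hs2 hσ2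
  have k1 : ∀ X ∈ Γ₁, X.1.map σ = dg Q₁ a₁ * X.1 * dg R₁ a₁⁻¹ := fun X hX =>
    conj_of_inter (dg_inv hQ1 ha1) (e1 X hX)
  have k2 : ∀ X ∈ Γ₂, X.1.map σ = dg Q₂ a₂ * ((X⁻¹).1)ᵀ * dg R₂ a₂⁻¹ := fun X hX =>
    conj_of_inter (dg_inv hQ2 ha2) (e2 X hX)
  have hid := identity_ext hd1 hd2 b (starRingEnd ℂ b) (σ b) (σ (starRingEnd ℂ b))
    (((PolyMat.const (dg Q₁ a₁)).mul PolyMat.id).mul (PolyMat.const (dg R₁ a₁⁻¹)))
    (((PolyMat.const (dg Q₁ a₁)).mul PolyMat.adj).mul (PolyMat.const (dg R₁ a₁⁻¹)))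
    (((PolyMat.const (dg Q₂ a₂)).mul PolyMat.adj.transpose).mul (PolyMat.const (dg R₂ a₂⁻¹)))
    (((PolyMat.const (dg Q₂ a₂)).mul PolyMat.id.transpose).mul (PolyMat.const (dg R₂ a₂⁻¹))) (by
      intro X hX Y hY
      have h4 := adj_traces hadj hX hY
      rw [k1 X hX, k2 Y hY, k1 _ (Γ₁.inv_mem hX), k2 _ (Γ₂.inv_mem hY), inv_inv] at h4
      rw [adj_eq_inv (hs1 hX).2, adj_eq_inv (hs2 hY).2]
      exact h4)
  have hN : (Fintype.card m + 2 : ℂ) ≠ 0 := by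
    have : ((Fintype.card m + 2 : ℕ) : ℂ) ≠ 0 := Nat.cast_ne_zero.2 (by omega)
    push_cast at this
    exact this
  obtain ⟨U, V, hUV⟩ := exists_UV (m := m)
  have h4 : ∀ q : ℂ, ((Fintype.card m + 2 : ℂ) - q * (σ b * (a₂ * a₁⁻¹))) *
      ((Fintype.card m + 2 : ℂ) - q * (σ b * (a₂ * a₁⁻¹))) =
      ((Fintype.card m + 2 : ℂ)) * ((Fintype.card m + 2 : ℂ)) := by
    intro q
    have h5 := hid (up (R₁ * (Q₂ * (q • U)))) (up Vᵀ) (det_up _) (det_up _)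
    simp only [adj_up, dg_up hQ1 ha1, up_transpose, Matrix.transpose_neg,
      Matrix.transpose_transpose, dg_lo hQ2 ha2, F_up_lo, F_up_up] at h5
    have t0 : V * R₂ * (Q₁ * (R₁ * (Q₂ * (q • U)))) = V * (q • U) := by
      rw [← Matrix.mul_assoc Q₁, hQ1, Matrix.one_mul, Matrix.mul_assoc V, ← Matrix.mul_assoc R₂,
        hR2, Matrix.one_mul]
    have t3 : ((a₂ • (-V * R₂)) * (a₁⁻¹ • (Q₁ * (R₁ * (Q₂ * (q • U)))))).trace =
        -(q * (a₂ * a₁⁻¹)) := by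
      rw [Matrix.neg_mul, smul_neg, Matrix.neg_mul, Matrix.trace_neg, Matrix.smul_mul,
        Matrix.mul_smul, t0, Matrix.trace_smul, Matrix.trace_smul, tr_t1 hUV, smul_eq_mul,
        smul_eq_mul]
      ring
    have t4 : ((a₂ • (V * R₂)) * (a₁⁻¹ • (Q₁ * -(R₁ * (Q₂ * (q • U)))))).trace =
        -(q * (a₂ * a₁⁻¹)) := by
      rw [Matrix.mul_neg, smul_neg, Matrix.mul_neg, Matrix.trace_neg, Matrix.smul_mul,
        Matrix.mul_smul, t0, Matrix.trace_smul, Matrix.trace_smul, tr_t1 hUV, smul_eq_mul,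
        smul_eq_mul]
      ring
    rw [t3, t4] at h5
    linear_combination h5
  have h5 := h4 1
  have h6 := h4 (-1)
  have h7 := sq_lin hN (x := σ b * (a₂ * a₁⁻¹)) (y := 0) (by linear_combination h6)
    (by linear_combination h5)
  have h8 : σ b = 0 := by
    rcases mul_eq_zero.1 h7 with h | h
    · exact h
    · exact absurd h (mul_ne_zero ha2 (inv_ne_zero ha1))
  exact (map_eq_zero σ).1 h8

end Pool.Agent.K4H40.TH
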