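import Mathlib
import Pool.Agent.K4H40.TH.Mixed

/-!
# Arithmeticity of tilted hybrids
-/

set_option autoImplicit false
set_option linter.unusedSectionVars false


namespace Pool.Agent.K4H40.TH

open Matrix Pool.Agent.K4H34.HH

section general

variable {N : Type} [Fintype N] [DecidableEq N]

theorem adj_value {H : Matrix N N ℂ} (hH : IsUnit H) {γ : GL' N} (hγ : γ ∈ SU H) :
    (((‖γ.1.trace‖ ^ 2 - 1 : ℝ) : ℂ)) = γ.1.trace * (γ⁻¹).1.trace - 1 := by
  rw [trace_inv hH hγ, Complex.mul_conj']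
  push_cast
  ring

theorem bounded_of_adj {H : Matrix N N ℂ} (hH : IsUnit H) {G : Subgroup (GL' N)} (hG : G ≤ SU H)
    {σ : ℂ ≃+* ℂ} (h : ∃ C : ℝ, ∀ γ ∈ G, ‖σ (((‖γ.1.trace‖ ^ 2 - 1 : ℝ) : ℂ))‖ ≤ C) :
    TracesBounded σ G := by
  obtain ⟨C, hC⟩ := h
  refine ⟨Fintype.card N, fun g hg => ?_⟩
  have h1 : ∀ x : GL' N, (tw σ (co N) x).trace = σ x.1.trace := by
    intro x
    rw [← tr_map]
    rfl
  rw [← h1]
  refine trace_le_card (B := tw σ (co N) g⁻¹) (K := C + 1) ?_ ?_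
  · have h2 : tw σ (co N) g⁻¹ = (σ : ℂ →+* ℂ).mapMatrix (g⁻¹).1 := rfl
    rw [h2, ← RingHom.map_det, (hG (G.inv_mem hg)).2, map_one]
  · intro k _
    rw [← map_pow, ← map_pow, h1, h1, ← map_mul, inv_pow]
    have h3 := hC _ (G.pow_mem hg k)
    rw [adj_value hH (hG (G.pow_mem hg k)), map_sub, map_one] at h3
    have h4 := norm_add_le (σ ((g ^ k).1.trace * ((g ^ k)⁻¹).1.trace) - 1) 1
    rw [sub_add_cancel, norm_one] at h4
    linarith

end general

variable {m : Type} [Fintype m] [DecidableEq m]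
variable {Γ₁ Γ₂ : Subgroup (GL' (m ⊕ Unit))} {Γ₃ : Subgroup (GL' m)}

/-- **A tilted hybrid with `b ≠ 0` satisfies the adjoint condition if and only if it satisfies
Vinberg's condition.** -/
theorem adj_iff (hm : 2 ≤ Fintype.card m) {J : Matrix m m ℂ} (hJ : IsUnit J)
    (hs1 : Γ₁ ≤ SU (extend J)) (hs2 : Γ₂ ≤ SU (extend J))
    (h3 : Spans (coeR Γ₃)) (h1 : Spans (coeR Γ₁))
    (h2 : Spans (coeR Γ₂)) (hle1 : Γ₃.map extendGL ≤ Γ₁) (hle2 : Γ₃.map extendGL ≤ Γ₂)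
    (hd1 : IsZariskiDense Γ₁) (hd2 : IsZariskiDense Γ₂)
    (hu : HasUnboundedTraces Γ₃) (hV1 : VinbergCondition Γ₁) (hV2 : VinbergCondition Γ₂)
    {b : ℂ} (hb0 : b ≠ 0) (hb : ‖b‖ < 1) :
    AdjointVinbergCondition (tiltedHybrid b Γ₁ Γ₂) ↔ VinbergCondition (tiltedHybrid b Γ₁ Γ₂) := by
  have hH := isUnit_tiltedForm hJ hb
  have hG := tilted_le hs1 hs2 b
  refine ⟨fun hA σ => ?_, adjoint_of_vinberg hH hG⟩
  rcases hA σ with hbd | hfix
  · exact Or.inl (bounded_of_adj hH hG hbd)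
  · have hadj : ∀ g ∈ tiltedHybrid b Γ₁ Γ₂,
        σ (g.1.trace * (g⁻¹).1.trace) = g.1.trace * (g⁻¹).1.trace := by
      intro g hg
      have h4 := hfix g hg
      rw [adj_value hH (hG hg), map_sub, map_one] at h4
      exact sub_left_inj.1 h4
    let τ : ℂ ≃+* ℂ := σ.trans starRingAut
    have hτ : ∀ z, τ z = starRingEnd ℂ (σ z) := fun z => rfl
    have hadjτ : ∀ g ∈ tiltedHybrid b Γ₁ Γ₂,
        τ (g.1.trace * (g⁻¹).1.trace) = g.1.trace * (g⁻¹).1.trace := by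
      intro g hg
      rw [hτ, hadj g hg, trace_inv hH (hG hg), map_mul, Complex.conj_conj, mul_comm]
    rcases hV1 σ with hb1 | hf1 | hc1
    · exfalso
      obtain ⟨C, hC⟩ := hb1
      have hu1 : HasUnboundedTraces Γ₁ := by
        rintro ⟨K, hK⟩
        refine hu ⟨K + 1, fun γ hγ => ?_⟩
        have h5 := hK _ (hle1 ⟨γ, hγ, rfl⟩)
        rw [trace_extendGL] at h5
        have h6 := norm_sub_le (γ.1.trace + 1) 1
        rw [add_sub_cancel_right, norm_one] at h6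
        linarith
      refine hu1 ⟨(C + 1) * (C + 1) + 2, fun γ hγ => ?_⟩
      have h4 := hadj _ (tleft_mem hγ)
      rw [trace_inv hH (hG (tleft_mem hγ)), Complex.mul_conj', map_pow] at h4
      have h5 : ‖(((‖(tiltGL b γ).1.trace‖ : ℝ) : ℂ)) ^ 2‖ ≤ (C + 1) * (C + 1) := by
        rw [← h4, ← map_pow, ← Complex.mul_conj', ← trace_inv hH (hG (tleft_mem hγ)), map_mul,
          norm_mul, ← map_inv, trace_tilt, trace_tilt, map_add, map_one, map_add, map_one]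
        have e1 : ‖σ γ.1.trace + 1‖ ≤ C + 1 := by
          refine (norm_add_le _ _).trans ?_
          rw [norm_one]
          exact add_le_add (hC γ hγ) le_rfl
        have e2 : ‖σ (γ⁻¹).1.trace + 1‖ ≤ C + 1 := by
          refine (norm_add_le _ _).trans ?_
          rw [norm_one]
          exact add_le_add (hC _ (Γ₁.inv_mem hγ)) le_rfl
        exact mul_le_mul e1 e2 (norm_nonneg _) ((norm_nonneg _).trans e1)
      rw [norm_pow, Complex.norm_real, norm_norm, trace_tilt] at h5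
      have h6 := norm_sub_le (γ.1.trace + 1) 1
      rw [add_sub_cancel_right, norm_one] at h6
      nlinarith [sq_nonneg (‖γ.1.trace + 1‖ - 1)]
    · rcases hV2 σ with hb2 | hf2 | hc2
      · exact absurd (fixed_of_extend hle1 hf1)
          (not_bounded_fixed hu (bounded_of_extend hle2 hb2))
      · exact Or.inr (Or.inl (fixed_tilted hm h3 h1 h2 hle1 hle2 hd1 hd2
          (fun X hX => (hs1 hX).2) (fun X hX => (hs2 hX).2) hf1 hf2
          (fun X hX Y hY => adj_traces hadj hX hY)))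
      · exact absurd (mixed_zero hm h3 h1 h2 hle1 hle2 hd1 hd2 (isUnit_extend hJ) hs1 hs2 hf1 hc2
          hadj) hb0
    · have hτ1 : TracesFixed τ Γ₁ := fun γ hγ => by rw [hτ, hc1 γ hγ, Complex.conj_conj]
      rcases hV2 σ with hb2 | hf2 | hc2
      · exact absurd (conj_of_extend hle1 hc1)
          (not_bounded_conj hu (bounded_of_extend hle2 hb2))
      · exact absurd (mixed_zero hm h3 h1 h2 hle1 hle2 hd1 hd2 (isUnit_extend hJ) hs1 hs2 hτ1
          (fun γ hγ => by rw [hτ, hf2 γ hγ]) hadjτ) hb0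
      · have h4 := fixed_tilted hm h3 h1 h2 hle1 hle2 hd1 hd2
          (fun X hX => (hs1 hX).2) (fun X hX => (hs2 hX).2) hτ1
          (fun γ hγ => by rw [hτ, hc2 γ hγ, Complex.conj_conj])
          (fun X hX Y hY => adj_traces hadjτ hX hY)
        right
        right
        intro γ hγ
        have h5 := h4 γ hγ
        rw [hτ] at h5
        rw [← h5, Complex.conj_conj, h5]

/-- If `n ≥ 4` the two groups have the same trace field. -/
theorem fields_eq (hle1 : Γ₃.map extendGL ≤ Γ₁) (hle2 : Γ₃.map extendGL ≤ Γ₂)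
    (hu : HasUnboundedTraces Γ₃) (hn3 : HasNonrealTrace Γ₃) (hV1 : VinbergCondition Γ₁)
    (hV2 : VinbergCondition Γ₂) : traceField Γ₁ = traceField Γ₃ ∧ traceField Γ₂ = traceField Γ₃ :=
  ⟨(field_eq_iff _ _).2 (fixed_up hle1 hu hn3 hV1), (field_eq_iff _ _).2 (fixed_up hle2 hu hn3 hV2)⟩

/-- **Tilted hybrids in `SU(n, 1)`, `n = k + 3`.** -/
theorem main (k : ℕ) {b : ℂ} (hb0 : b ≠ 0) (hb : ‖b‖ < 1)
    {Γ₁ Γ₂ : Subgroup (GL' (Fin (k + 2) ⊕ Unit))}
    {Γ₃ : Subgroup (GL' (Fin (k + 2)))} (h₁ : IsLarge (extend (lorentz (k + 1))) Γ₁)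
    (h₂ : IsLarge (extend (lorentz (k + 1))) Γ₂) (h₃ : IsLarge (lorentz (k + 1)) Γ₃)
    (hle1 : Γ₃.map extendGL ≤ Γ₁) (hle2 : Γ₃.map extendGL ≤ Γ₂)
    (hV1 : VinbergCondition Γ₁) (hV2 : VinbergCondition Γ₂) :
    tiltedHybrid b Γ₁ Γ₂ ≤ SU (tiltedForm (lorentz (k + 1)) b) ∧
    (AdjointVinbergCondition (tiltedHybrid b Γ₁ Γ₂) ↔
      traceField Γ₁ = traceField Γ₂ ∧
      (∀ g₁ ∈ Γ₁, ∀ g₂ ∈ Γ₂,
        (tiltGL b g₁ * swapGL (tiltGL (starRingEnd ℂ b) g₂)).1.trace ∈ traceField Γ₁) ∧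
      ∀ σ : ℂ ≃+* ℂ, TracesBounded σ Γ₁ → ∃ r : ℝ, r < 1 ∧ σ ((‖b‖ ^ 2 : ℝ) : ℂ) = r) ∧
    (1 ≤ k → traceField Γ₁ = traceField Γ₂) := by
  have c3 : 2 ≤ Fintype.card (Fin (k + 2)) := by
    rw [Fintype.card_fin]
    omega
  have c1 : 3 ≤ Fintype.card (Fin (k + 2) ⊕ Unit) := by
    rw [Fintype.card_sum, Fintype.card_fin, Fintype.card_unit]
    omega
  have s1 := spans_of_dense (le_trans (by norm_num) c1) h₁.dense
  have s2 := spans_of_dense (le_trans (by norm_num) c1) h₂.dense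
  have s3 := spans_of_dense c3 h₃.dense
  have hJ := isUnit_lorentz (k + 1)
  have hu := unbounded_traces s3 h₃.unbounded
  have hbb : ((‖b‖ ^ 2 : ℝ) : ℂ) = b * starRingEnd ℂ b := by
    rw [Complex.mul_conj']
    push_cast
    rfl
  refine ⟨tilted_le h₁.le h₂.le b, ?_, fun hk => ?_⟩
  · rw [adj_iff c3 hJ h₁.le h₂.le s3 s1 s2 hle1 hle2 h₁.dense h₂.dense hu hV1 hV2 hb0 hb,
      tilted_iff c3 hJ h₁.le h₂.le s3 s1 s2 hle1 hle2 hu hV1 hV2
        (nonreal_of_dense (isUnit_extend hJ) h₁.le h₁.dense (exists_traces c1))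
        (nonreal_of_dense (isUnit_extend hJ) h₂.le h₂.dense (exists_traces c1)) hb, hbb]
    constructor
    · rintro ⟨e1, e2, e3⟩
      refine ⟨by rw [← e1, ← e2], fun g₁ hg₁ g₂ hg₂ => ?_, e3⟩
      rw [← e1]
      exact trace_mem (mul_mem (tleft_mem hg₁) (tright_mem hg₂))
    · rintro ⟨e1, e2, e3⟩
      have e4 := field_of_products c3 s3 s1 s2 hle1 hle2 h₁.dense h₂.dense
        (fun X hX => (h₁.le hX).2) (fun X hX => (h₂.le hX).2) e1 e2
      exact ⟨e4, by rw [e4, e1], e3⟩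
  · obtain ⟨k2, k3⟩ := fields_eq hle1 hle2 hu
      (nonreal_of_dense hJ h₃.le h₃.dense (exists_traces (by
        rw [Fintype.card_fin]
        omega))) hV1 hV2
    rw [k2, k3]

end Pool.Agent.K4H40.TH
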